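import Pool.Agent.Y295.HS.F

/-! From rich sets to Hausdorff measure, exponent `σ` (adapted from `HR/D.lean`). -/

open Filter Topology Set MeasureTheory
open scoped ENNReal NNReal

namespace Pool.Agent.Y295.HS

open Pool.Agent.Helper95.Hada Pool.Agent.Y295.HR

/-- a compact set that is not covered by finitely many intervals with small sum of the `σ`-th
powers of the lengths has positive `σ`-dimensional Hausdorff measure -/
theorem hausdorff_posS {σ : ℝ} (hσ : 0 < σ) (hσ1 : σ ≤ 1) {K : Set ℝ} (hK : IsCompact K) {v : ℝ}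
    (hv : 0 < v)
    (h : ∀ P : Finset (ℝ × ℝ), (∀ b ∈ P, 0 < b.2) → ∑ b ∈ P, b.2 ^ σ < v →
      ∃ θ ∈ K, ∀ b ∈ P, b.2 < |θ - b.1|) :
    Measure.hausdorffMeasure σ K ≠ 0 := by
  classical
  intro h0
  rw [Measure.hausdorffMeasure_apply] at h0
  simp only [ENNReal.iSup_eq_zero] at h0
  have h1 := h0 1 one_pos
  have h2 : (⨅ (t : ℕ → Set ℝ) (_ : K ⊆ ⋃ n, t n) (_ : ∀ n, Metric.ediam (t n) ≤ 1),
      ∑' n, ⨆ _ : (t n).Nonempty, Metric.ediam (t n) ^ σ) < ENNReal.ofReal (v / 2) := by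
    rw [h1]
    exact ENNReal.ofReal_pos.2 (by positivity)
  simp only [iInf_lt_iff] at h2
  obtain ⟨t, hcov, hdiam, hsum⟩ := h2
  -- centres and radii
  set x : ℕ → ℝ := fun n => (Metric.ediam (t n)).toReal with hx
  have hfin : ∀ n, Metric.ediam (t n) ≠ ⊤ := fun n => ne_top_of_le_ne_top ENNReal.one_ne_top (hdiam n)
  have hx0 : ∀ n, 0 ≤ x n := fun n => ENNReal.toReal_nonneg
  have hxs0 : ∀ n, 0 ≤ (x n) ^ σ := fun n => Real.rpow_nonneg (hx0 n) _
  have hterm : ∀ n, (⨆ _ : (t n).Nonempty, Metric.ediam (t n) ^ σ) =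
      ENNReal.ofReal ((x n) ^ σ) := by
    intro n
    by_cases hn : (t n).Nonempty
    · simp only [hn, ciSup_unique]
      rw [← ENNReal.ofReal_rpow_of_nonneg (hx0 n) hσ.le, hx]
      simp only
      rw [ENNReal.ofReal_toReal (hfin n)]
    · rw [not_nonempty_iff_eq_empty] at hn
      simp [hn, hx, hσ.ne']
  simp only [hterm] at hsum
  have hsumm : Summable (fun n => (x n) ^ σ) := by
    have h3 : (∑' n, ENNReal.ofReal ((x n) ^ σ)) ≠ ⊤ := (hsum.trans ENNReal.ofReal_lt_top).ne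
    exact (ENNReal.summable_toReal h3).congr fun n => by
      rw [ENNReal.toReal_ofReal (hxs0 n)]
  have hsum2 : ∑' n, (x n) ^ σ < v / 2 := by
    rw [← ENNReal.ofReal_tsum_of_nonneg hxs0 hsumm] at hsum
    exact (ENNReal.ofReal_lt_ofReal_iff (by positivity)).1 hsum
  have hcen : ∀ n, ∃ b : ℝ, ∀ θ ∈ t n, |θ - b| ≤ x n := by
    intro n
    rcases (t n).eq_empty_or_nonempty with hn | ⟨b, hb⟩
    · exact ⟨0, by simp [hn]⟩
    · refine ⟨b, fun θ hθ => ?_⟩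
      have h3 : edist θ b ≤ Metric.ediam (t n) := Metric.edist_le_ediam_of_mem hθ hb
      have h4 := ENNReal.toReal_mono (hfin n) h3
      rwa [edist_dist, ENNReal.toReal_ofReal dist_nonneg, Real.dist_eq] at h4
  choose b hb using hcen
  set e : ℕ → ℝ := fun n => v / 8 * (1 / 2) ^ n with he
  have he0 : ∀ n, 0 < e n := fun n => by simp only [he]; positivity
  set r : ℕ → ℝ := fun n => x n + (e n) ^ (1 / σ) with hr
  have hes0 : ∀ n, 0 < (e n) ^ (1 / σ) := fun n => Real.rpow_pos_of_pos (he0 n) _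
  have hr0 : ∀ n, 0 < r n := fun n => by
    have := hes0 n
    have := hx0 n
    simp only [hr]; linarith
  have hsqr : ∀ n, (r n) ^ σ ≤ (x n) ^ σ + e n := by
    intro n
    have h3 := Real.rpow_add_le_add_rpow (hx0 n) (hes0 n).le hσ.le hσ1
    have h4 : ((e n) ^ (1 / σ)) ^ σ = e n := by
      rw [← Real.rpow_mul (he0 n).le]
      have : 1 / σ * σ = 1 := by field_simp
      rw [this, Real.rpow_one]
    rw [h4] at h3
    exact h3
  have hes : HasSum e (v / 4) := by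
    have h3 := (hasSum_geometric_of_lt_one (r := (1 / 2 : ℝ)) (by norm_num) (by norm_num)).mul_left
      (v / 8)
    have h4 : v / 8 * (1 - 1 / 2)⁻¹ = v / 4 := by norm_num; ring
    rwa [h4] at h3
  -- the finite subcover
  have hcov' : K ⊆ ⋃ n, Metric.ball (b n) (r n) := by
    intro θ hθ
    obtain ⟨n, hn⟩ := mem_iUnion.1 (hcov hθ)
    refine mem_iUnion.2 ⟨n, ?_⟩
    rw [Metric.mem_ball, Real.dist_eq]
    have h3 := hb n θ hn
    have h4 := hes0 n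
    simp only [hr]
    linarith
  obtain ⟨I, hI⟩ := hK.elim_finite_subcover _ (fun n => Metric.isOpen_ball) hcov'
  have hpos : ∀ p ∈ I.image (fun n => (b n, r n)), 0 < p.2 := by
    intro p hp
    obtain ⟨n, -, rfl⟩ := Finset.mem_image.1 hp
    exact hr0 n
  obtain ⟨θ, hθK, hθ⟩ := h (I.image fun n => (b n, r n)) hpos (by
    calc ∑ p ∈ I.image (fun n => (b n, r n)), p.2 ^ σ
        = ∑ p ∈ I.image (fun n => (b n, r n)), |p.2| ^ σ :=
          Finset.sum_congr rfl fun p hp => by rw [abs_of_pos (hpos p hp)]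
      _ ≤ ∑ n ∈ I, |r n| ^ σ :=
          sum_image_le (fun n => (b n, r n)) (fun p => |p.2| ^ σ)
            (fun p => Real.rpow_nonneg (abs_nonneg _) _) I
      _ = ∑ n ∈ I, (r n) ^ σ := Finset.sum_congr rfl fun n _ => by rw [abs_of_pos (hr0 n)]
      _ ≤ ∑ n ∈ I, ((x n) ^ σ + e n) := Finset.sum_le_sum fun n _ => hsqr n
      _ = ∑ n ∈ I, (x n) ^ σ + ∑ n ∈ I, e n := Finset.sum_add_distrib
      _ ≤ ∑' n, (x n) ^ σ + v / 4 := by
          apply add_le_add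
          · exact hsumm.sum_le_tsum _ fun n _ => hxs0 n
          · rw [← hes.tsum_eq]
            exact hes.summable.sum_le_tsum _ fun n _ => (he0 n).le
      _ < v := by linarith)
  obtain ⟨n, hn⟩ := mem_iUnion.1 (hI hθK)
  obtain ⟨hnI, hn⟩ := mem_iUnion.1 hn
  have h3 := hθ (b n, r n) (Finset.mem_image_of_mem _ hnI)
  rw [Metric.mem_ball, Real.dist_eq] at hn
  simp only at h3
  linarith

/-- lower bounds on the levels give the growth `M ^ γ`, uniformly -/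
theorem growth_unif {S : Ser} {d : ℝ} (L : Lev S d) {γ γ' c₀ : ℝ} (hγ0 : 0 ≤ γ) (hγγ : γ < γ')
    (hc₀ : 0 < c₀) (n₀ : ℕ) : ∃ s₀ : ℝ, 0 < s₀ ∧ ∀ θ : ℝ,
      (∀ n, n₀ ≤ n → ∀ s ∈ Icc (L.s (n + 2)) (L.s (n + 1)), c₀ * ((1 + d) ^ n) ^ γ' ≤ ‖S.F s θ‖) →
      ∀ s, 0 < s → s < s₀ → S.M s ^ γ ≤ ‖S.F s θ‖ := by
  have hd := L.d_pos
  have hb : (1 : ℝ) < 1 + d := by linarith
  -- large levels
  have h0 : Tendsto (fun n : ℕ => c₀ * ((1 + d) ^ n) ^ (γ' - γ)) atTop atTop := by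
    apply Tendsto.const_mul_atTop hc₀
    exact (tendsto_rpow_atTop (by linarith)).comp (tendsto_pow_atTop_atTop_of_one_lt hb)
  obtain ⟨n1, hn1⟩ := eventually_atTop.1 (h0.eventually_ge_atTop (((1 + d) ^ 2) ^ γ))
  set N := max n₀ n1 with hN
  refine ⟨L.s (N + 1), L.s_pos _, fun θ h s hs0 hs1 => ?_⟩
  have hex : ∃ k, L.s k < s := by
    have := (L.tendsto_s.eventually_lt_const hs0)
    exact this.exists
  classical
  have hk := Nat.find_spec hex
  have hkmin : ∀ m < Nat.find hex, ¬ L.s m < s := fun m hm => Nat.find_min hex hm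
  set k := Nat.find hex with hkdef
  have hk2 : N + 1 < k := by
    have h1 : L.s k < L.s (N+1) := lt_of_lt_of_le hk hs1.le
    exact L.anti.lt_iff_gt.1 h1
  clear_value k
  obtain ⟨n, rfl⟩ : ∃ n, k = n + 2 := ⟨k - 2, by omega⟩
  have h2 : s ≤ L.s (n + 1) := not_lt.1 (hkmin (n+1) (by omega))
  have h3 := h n (by have := le_max_left n₀ n1; omega) s ⟨hk.le, h2⟩
  have h4 := hn1 n (by have := le_max_right n₀ n1; omega)
  have h5 : S.M s ≤ (1 + d) ^ n * (1 + d) ^ 2 := by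
    have h6 := S.M_anti_aux (L.s_pos (n + 2)) hk.le
    rw [L.hM] at h6
    rwa [← pow_add]
  have h7 : 0 ≤ S.M s := tsum_nonneg fun k => S.x_nonneg k s
  have h8 : 0 < ((1 + d) ^ n) ^ γ := by positivity
  calc S.M s ^ γ ≤ ((1 + d) ^ n * (1 + d) ^ 2) ^ γ := Real.rpow_le_rpow h7 h5 hγ0
    _ = ((1 + d) ^ n) ^ γ * ((1 + d) ^ 2) ^ γ := Real.mul_rpow (by positivity) (by positivity)
    _ ≤ ((1 + d) ^ n) ^ γ * (c₀ * ((1 + d) ^ n) ^ (γ' - γ)) :=
        mul_le_mul_of_nonneg_left h4 h8.le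
    _ = c₀ * ((1 + d) ^ n) ^ γ' := by
        have h9 : ((1 + d) ^ n) ^ γ * ((1 + d) ^ n) ^ (γ' - γ) = ((1 + d) ^ n) ^ γ' := by
          rw [← Real.rpow_add (by positivity)]
          congr 1
          ring
        rw [← h9]; ring
    _ ≤ _ := h3

/-- `σ`-dimensional measure, `σ = 1 - 2e`, `e ≤ 1/4` -/
theorem ser_rich_aux {σ e γ : ℝ} (hσ : 0 < σ) (he : 0 < e) (hσe : σ + e = 1 - e) (heσ : e ≤ σ)
    (hγ0 : 0 ≤ γ) (hγ : γ < 1)
    (S : Ser) (hS : Tendsto S.M (𝓝[>] 0) atTop) {α β : ℝ} (hαβ : α < β) :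
    ∃ K : Set ℝ, K ⊆ Ioo α β ∧ IsCompact K ∧ Measure.hausdorffMeasure σ K ≠ 0 ∧
      ∃ s₀ : ℝ, 0 < s₀ ∧ ∀ s, 0 < s → s < s₀ → ∀ θ ∈ K, S.M s ^ γ ≤ ‖S.F s θ‖ := by
  have hσ1 : σ ≤ 1 := by linarith
  set γ' : ℝ := (1 + γ) / 2 with hγ'
  have hγγ : γ < γ' := by rw [hγ']; linarith
  have hγ1 : γ' < 1 := by rw [hγ']; linarith
  set c : ℝ := (α + β) / 2 with hc
  set δ : ℝ := (β - α) / 12 with hδ
  have hδ0 : 0 < δ := by rw [hδ]; linarith
  obtain ⟨d, L, ψ, n₀, v, ⟨c₀, hc₀, hψ⟩, hv, hP⟩ :=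
    main_locS hσ he hσe heσ hγ1 (shift S c) (by rw [shift_M]; exact hS) hδ0
  set K' : Set ℝ := {θ | θ ∈ Icc (-(3 * δ)) (3 * δ) ∧ ∀ n, n₀ ≤ n →
    ∀ s ∈ Icc (L.s (n + 2)) (L.s (n + 1)), ψ n ≤ ‖(shift S c).F s θ‖} with hK'
  have hK'c : IsCompact K' := by
    have h1 : IsClosed {θ : ℝ | ∀ n, n₀ ≤ n →
        ∀ s ∈ Icc (L.s (n + 2)) (L.s (n + 1)), ψ n ≤ ‖(shift S c).F s θ‖} := by
      simp only [Set.ofPred_forall]
      refine isClosed_iInter fun n => isClosed_iInter fun _ => isClosed_iInter fun s =>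
        isClosed_iInter fun hs => ?_
      have hs0 : 0 < s := lt_of_lt_of_le (L.s_pos _) hs.1
      exact isClosed_le continuous_const (F_cont _ hs0).norm
    exact isCompact_Icc.inter_right h1
  have hK'0 : Measure.hausdorffMeasure σ K' ≠ 0 := by
    refine hausdorff_posS hσ hσ1 hK'c hv fun P hP0 hPv => ?_
    obtain ⟨θ, h1, h2, h3⟩ := hP P hP0 hPv
    exact ⟨θ, ⟨abs_le.1 h1, h3⟩, h2⟩
  refine ⟨(fun θ => θ + c) '' K', ?_, hK'c.image (by fun_prop), ?_, ?_⟩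
  · rintro _ ⟨θ, hθ, rfl⟩
    have h1 := hθ.1.1
    have h2 := hθ.1.2
    simp only [hδ] at h1 h2
    constructor
    · simp only [hc]; linarith
    · simp only [hc]; linarith
  · rw [(isometry_add_right c).hausdorffMeasure_image (Or.inl hσ.le)]
    exact hK'0
  · obtain ⟨s₀, hs₀, h1⟩ := growth_unif L hγ0 hγγ hc₀ n₀
    refine ⟨s₀, hs₀, ?_⟩
    rintro s hs hss _ ⟨θ, hθ, rfl⟩
    have h2 := h1 θ (fun n hn s hs => (hψ n).trans (hθ.2 n hn s hs)) s hs hss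
    rwa [shift_F, shift_M] at h2

/-- main theorem on lacunary series with real frequencies: for every `σ < 1` and `γ < 1`, in every
interval there is a compact set of positive `σ`-dimensional Hausdorff measure on which the modulus
is at least the power `γ` of the sum of the absolute values, uniformly -/
theorem ser_richS {σ γ : ℝ} (hσ1 : σ < 1) (hγ : γ < 1) (S : Ser)
    (hS : Tendsto S.M (𝓝[>] 0) atTop) {α β : ℝ} (hαβ : α < β) :
    ∃ K : Set ℝ, K ⊆ Ioo α β ∧ IsCompact K ∧ Measure.hausdorffMeasure σ K ≠ 0 ∧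
      ∃ s₀ : ℝ, 0 < s₀ ∧ ∀ s, 0 < s → s < s₀ → ∀ θ ∈ K, S.M s ^ γ ≤ ‖S.F s θ‖ := by
  set σ' : ℝ := max σ (1 / 2) with hσ'
  have h1 : σ' < 1 := max_lt hσ1 (by norm_num)
  have h2 : 1 / 2 ≤ σ' := le_max_right _ _
  have h3 : σ ≤ σ' := le_max_left _ _
  obtain ⟨K, hK1, hK2, hK3, s₀, hs₀, hK4⟩ := ser_rich_aux (σ := σ') (e := (1 - σ') / 2)
    (γ := max γ 0) (by linarith) (by linarith) (by ring) (by linarith) (le_max_right _ _)
    (max_lt hγ one_pos) S hS hαβ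
  refine ⟨K, hK1, hK2, fun h0 => hK3 ?_, ?_⟩
  · have h4 := Measure.hausdorffMeasure_mono h3 K
    rw [h0] at h4
    exact nonpos_iff_eq_zero.1 h4
  · have h5 : ∀ᶠ s in 𝓝[>] (0 : ℝ), 1 ≤ S.M s := hS.eventually_ge_atTop 1
    obtain ⟨s₁, hs₁, h6⟩ := mem_nhdsGT_iff_exists_Ioo_subset.1 h5
    refine ⟨min s₀ s₁, lt_min hs₀ hs₁, fun s hs hss θ hθ => ?_⟩
    have h7 : 1 ≤ S.M s := h6 ⟨hs, hss.trans_le (min_le_right _ _)⟩
    exact (Real.rpow_le_rpow_of_exponent_le h7 (le_max_left _ _)).trans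
      (hK4 s hs (hss.trans_le (min_le_left _ _)) θ hθ)

end Pool.Agent.Y295.HS
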