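import Pool.Agent.Y295.HR.D

/-! Riesz drift with an arbitrarily large ratio of the frequencies of the Riesz product
(adapted from `Helper95.HadaRiesz.riesz_drift`). -/

namespace Pool.Agent.Y295.HS

open Pool.Agent.Helper95.Hada

/-- drift: with a suitable Riesz product, the mean of a lacunary cosine sum is at least a fixed
proportion of the sum of its coefficients -/
theorem riesz_drift_A (q : ℝ) (hq : 1 < q) (A : ℝ) : ∃ p : ℕ, 0 < p ∧ ∃ CV : ℝ, 4 ≤ CV ∧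
    ∀ (lam x α : ℕ → ℝ) (K₁ K₂ : ℕ) (c ℓ : ℝ), (∀ k, 0 < lam k) → (∀ k, q * lam k ≤ lam (k + 1)) →
      (∀ k, 0 ≤ x k) → 0 < ℓ → CV ≤ lam K₁ * ℓ →
      ∃ (μ β : ℕ → ℝ) (n : ℕ), lam K₁ ≤ μ 0 ∧ (∀ j, 6 * μ j ≤ μ (j + 1)) ∧
        (∀ j, A * μ j ≤ μ (j + 1)) ∧
        (1 / (8 * (p : ℝ))) * (∑ k ∈ Finset.Ico K₁ K₂, x k) ≤
          (1 / (2 * ℓ)) * ∫ θ in (c - ℓ)..(c + ℓ),
            rp μ β n θ * ∑ k ∈ Finset.Ico K₁ K₂, x k * Real.cos (lam k * θ + α k) := by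
  have hq0 : 0 < q := by linarith
  obtain ⟨σ, hσ⟩ : ∃ σ : ℝ, σ = 1 - 1 / q := ⟨_, rfl⟩
  have hσ0 : 0 < σ := by
    rw [hσ]
    have : 1 / q < 1 := by
      rw [div_lt_one hq0]
      exact hq
    linarith
  have hσ1 : σ ≤ 1 := by
    rw [hσ]
    have : 0 < 1 / q := by positivity
    linarith
  obtain ⟨p₀, hp₀⟩ := pow_unbounded_of_one_lt (max A (max 6 (1 + 2 / σ))) hq
  obtain ⟨p, hp, hpQ'⟩ : ∃ p : ℕ, 0 < p ∧ max A (max 6 (1 + 2 / σ)) ≤ q ^ p :=
    ⟨p₀ + 1, Nat.succ_pos _, hp₀.le.trans (pow_le_pow_right₀ hq.le (Nat.le_succ _))⟩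
  have hpQ : max 6 (1 + 2 / σ) ≤ q ^ p := (le_max_right _ _).trans hpQ'
  have hQA : A ≤ q ^ p := (le_max_left _ _).trans hpQ'
  have hQ6 : 6 ≤ q ^ p := le_trans (le_max_left _ _) hpQ
  have hQσ : 2 / (1 - 1 / q) ≤ q ^ p - 1 := by
    have := le_trans (le_max_right _ _) hpQ
    rw [← hσ]
    linarith
  refine ⟨p, hp, max 4 (8 * p * (4 / σ)), le_max_left _ _, ?_⟩
  intro lam x α K₁ K₂ c ℓ hlam hratio hx hℓ hCV
  have hpR : (0 : ℝ) < p := by exact_mod_cast hp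
  have hgrow : ∀ i t, q ^ t * lam i ≤ lam (i + t) := fun i t =>
    pow_growth lam q hq0.le hratio i t
  -- pigeonhole
  obtain ⟨r, hr, hrs⟩ : ∃ r ∈ Finset.range p, (1 / (p : ℝ)) * (∑ k ∈ Finset.Ico K₁ K₂, x k) ≤
      ∑ k ∈ (Finset.Ico K₁ K₂).filter (fun k => (k - K₁) % p = r), x k := by
    apply Finset.exists_le_of_sum_le ⟨0, Finset.mem_range.2 hp⟩
    rw [Finset.sum_const, Finset.card_range, nsmul_eq_mul]
    rw [Finset.sum_fiberwise_of_maps_to (g := fun k => (k - K₁) % p)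
      (fun k _ => Finset.mem_range.2 (Nat.mod_lt _ hp))]
    apply le_of_eq
    field_simp
  obtain ⟨L, hL⟩ : ∃ L : ℝ, L = lam K₁ := ⟨_, rfl⟩
  have hL0 : 0 < L := by rw [hL]; exact hlam _
  rw [← hL] at hCV
  have hLℓ : 0 < L * ℓ := mul_pos hL0 hℓ
  obtain ⟨μ, hμd⟩ : ∃ μ : ℕ → ℝ, ∀ j, μ j = lam (K₁ + r + p * j) := ⟨_, fun _ => rfl⟩
  obtain ⟨β, hβd⟩ : ∃ β : ℕ → ℝ, ∀ j, β j = α (K₁ + r + p * j) := ⟨_, fun _ => rfl⟩
  have hμQ : ∀ j, q ^ p * μ j ≤ μ (j + 1) := by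
    intro j
    rw [hμd, hμd]
    have := hgrow (K₁ + r + p * j) p
    rwa [show K₁ + r + p * j + p = K₁ + r + p * (j + 1) by ring] at this
  have hμ1 : L ≤ μ 0 := by
    rw [hμd, hL]
    have h1 := hgrow K₁ r
    have h2 : (1 : ℝ) ≤ q ^ r := one_le_pow₀ hq.le
    have h3 := hlam K₁
    simp only [mul_zero, add_zero]
    nlinarith
  have hμpos : ∀ j, 0 < μ j := fun j => by rw [hμd]; exact hlam _
  have hμ6 : ∀ j, 6 * μ j ≤ μ (j + 1) := by
    intro j
    refine le_trans ?_ (hμQ j)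
    exact mul_le_mul_of_nonneg_right hQ6 (hμpos j).le
  have hlt : ∀ i j, i < j → q * lam i ≤ lam j := by
    intro i j hij
    obtain ⟨t, rfl⟩ : ∃ t, j = i + (t + 1) := ⟨j - i - 1, by omega⟩
    refine le_trans ?_ (hgrow i (t + 1))
    have h2 : (1 : ℝ) ≤ q ^ t := one_le_pow₀ hq.le
    have h3 : 0 < q * lam i := mul_pos hq0 (hlam i)
    rw [pow_succ]
    nlinarith
  have hlamL : ∀ k, K₁ ≤ k → L ≤ lam k := by
    intro k hk
    obtain ⟨t, rfl⟩ : ∃ t, k = K₁ + t := ⟨k - K₁, by omega⟩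
    have h1 := hgrow K₁ t
    have h2 : (1 : ℝ) ≤ q ^ t := one_le_pow₀ hq.le
    have h3 := hlam K₁
    rw [hL]
    nlinarith
  have hone : 1 / (L * ℓ) ≤ 1 / (σ * (L * ℓ)) := by
    apply one_div_le_one_div_of_le (by positivity)
    nlinarith
  have hμA : ∀ j, A * μ j ≤ μ (j + 1) := by
    intro j
    refine le_trans ?_ (hμQ j)
    exact mul_le_mul_of_nonneg_right hQA (hμpos j).le
  refine ⟨μ, β, K₂, by rw [← hL]; exact hμ1, hμ6, hμA, ?_⟩
  -- linearity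
  have hlin : (1 / (2 * ℓ)) * ∫ θ in (c - ℓ)..(c + ℓ),
      rp μ β K₂ θ * ∑ k ∈ Finset.Ico K₁ K₂, x k * Real.cos (lam k * θ + α k) =
      ∑ k ∈ Finset.Ico K₁ K₂, x k * EE μ β c ℓ K₂ (lam k) (α k) := by
    have hc := rp_cont μ β K₂
    have h : ∀ θ, rp μ β K₂ θ * ∑ k ∈ Finset.Ico K₁ K₂, x k * Real.cos (lam k * θ + α k) =
        ∑ k ∈ Finset.Ico K₁ K₂, x k * (rp μ β K₂ θ * Real.cos (lam k * θ + α k)) := by
      intro θ
      rw [Finset.mul_sum]
      refine Finset.sum_congr rfl (fun k _ => ?_)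
      ring
    rw [intervalIntegral.integral_congr (fun θ _ => h θ)]
    rw [intervalIntegral.integral_finsetSum, Finset.mul_sum]
    · refine Finset.sum_congr rfl (fun k _ => ?_)
      rw [intervalIntegral.integral_const_mul]
      unfold EE
      ring
    · intro k _
      apply Continuous.intervalIntegrable
      fun_prop
  rw [hlin]
  -- non resonant
  have hnon : ∀ k, k ∈ Finset.Ico K₁ K₂ → (k - K₁) % p ≠ r →
      -(4 / (σ * (L * ℓ))) ≤ EE μ β c ℓ K₂ (lam k) (α k) := by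
    intro k hk hkr
    rw [Finset.mem_Ico] at hk
    have h1 := drift_aux q hq (q ^ p) hQ6 hQσ μ β hμQ L hL0 hμ1 c ℓ hℓ (lam k) (α k)
      (hlamL k hk.1) 0 K₂ (Nat.zero_le _) (by
        intro j _
        rw [hμd]
        rcases lt_trichotomy (K₁ + r + p * j) k with h | h | h
        · exact Or.inl (hlt _ _ h)
        · exfalso
          apply hkr
          rw [← h, show K₁ + r + p * j - K₁ = r + p * j by omega, Nat.add_mul_mod_self_left,
            Nat.mod_eq_of_lt (Finset.mem_range.1 hr)]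
        · exact Or.inr (hlt _ _ h))
    rw [← hσ] at h1
    have h2 := EE_zero μ β c ℓ hℓ (lam k) (α k) (hlam k).ne'
    rw [abs_of_pos (hlam k)] at h2
    have h3 : 1 / (lam k * ℓ) ≤ 1 / (L * ℓ) := by
      apply one_div_le_one_div_of_le hLℓ
      exact mul_le_mul_of_nonneg_right (hlamL k hk.1) hℓ.le
    have h4 : 4 / (σ * (L * ℓ)) = 4 * (1 / (σ * (L * ℓ))) := by ring
    have h5 : 4 / 3 / (σ * (L * ℓ)) = 4 / 3 * (1 / (σ * (L * ℓ))) := by ring
    have h6 : 0 < 1 / (σ * (L * ℓ)) := by positivity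
    rw [h5] at h1
    rw [h4]
    have h7 := (abs_le.1 h1).1
    have h8 := (abs_le.1 h2).1
    linarith
  -- resonant
  have hres : ∀ k, k ∈ Finset.Ico K₁ K₂ → (k - K₁) % p = r →
      1 / 4 - 4 / (σ * (L * ℓ)) ≤ EE μ β c ℓ K₂ (lam k) (α k) := by
    intro k hk hkr
    rw [Finset.mem_Ico] at hk
    obtain ⟨m, hm⟩ : ∃ m, k = K₁ + r + p * m := by
      refine ⟨(k - K₁) / p, ?_⟩
      have := Nat.mod_add_div (k - K₁) p
      rw [hkr] at this
      omega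
    have hmK : m + 1 ≤ K₂ := by
      have : m ≤ p * m := Nat.le_mul_of_pos_left m hp
      omega
    have hy : lam k = μ m := by rw [hμd, hm]
    have hγ : α k = β m := by rw [hβd, hm]
    have h1 := drift_aux q hq (q ^ p) hQ6 hQσ μ β hμQ L hL0 hμ1 c ℓ hℓ (lam k) (α k)
      (hlamL k hk.1) (m + 1) K₂ hmK (by
        intro j hj
        right
        rw [hμd]
        apply hlt
        rw [hm]
        have : p * m < p * j := Nat.mul_lt_mul_of_pos_left (by omega) hp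
        omega)
    rw [← hσ] at h1
    have h2 := EE_succ μ β c ℓ m (lam k) (α k)
    rw [hy, hγ] at h1 h2 ⊢
    rw [sub_self, sub_self] at h2
    have hS := sum_le_of_growth μ 6 (by norm_num) (hμpos 0) hμ6 m
    have hg6 : 6 ^ m * L ≤ μ m := by
      have := pow_growth μ 6 (by norm_num) hμ6 0 m
      rw [zero_add] at this
      refine le_trans ?_ this
      gcongr
    have hb : ∀ z : ℝ, μ m ≤ z → ∀ δ, |EE μ β c ℓ m z δ| ≤ (5 / 4) * (1 / (L * ℓ)) := by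
      intro z hz δ
      have hz0 : 0 < z := lt_of_lt_of_le (hμpos m) hz
      have hmp := hμpos m
      have h3 := EE_bound μ β hμpos c ℓ hℓ m z δ (by rw [abs_of_pos hz0]; linarith)
      rw [abs_of_pos hz0] at h3
      refine h3.trans ?_
      have h4 : (4 / 5) * (6 ^ m * L) ≤ z - ∑ j ∈ Finset.range m, μ j := by linarith
      have h5 : (3 / 2 : ℝ) ^ m / ((z - ∑ j ∈ Finset.range m, μ j) * ℓ) ≤
          (3 / 2 : ℝ) ^ m / ((4 / 5) * (6 ^ m * L) * ℓ) := by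
        apply div_le_div_of_nonneg_left (by positivity) (by positivity)
        exact mul_le_mul_of_nonneg_right h4 hℓ.le
      refine h5.trans ?_
      have h6 : (3 / 2 : ℝ) ^ m / ((4 / 5) * (6 ^ m * L) * ℓ) =
          (5 / 4) * ((1 / 4) ^ m * (1 / (L * ℓ))) := by
        have : (3 / 2 : ℝ) ^ m = (1 / 4) ^ m * 6 ^ m := by
          rw [← mul_pow]
          norm_num
        rw [this]
        field_simp
      rw [h6]
      have h7 : (1 / 4 : ℝ) ^ m ≤ 1 := pow_le_one₀ (by norm_num) (by norm_num)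
      have h8 : 0 < 1 / (L * ℓ) := by positivity
      nlinarith
    have b1 := (abs_le.1 (hb (μ m) le_rfl (β m))).1
    have b2 := (abs_le.1 (hb (μ m + μ m) (by linarith [hμpos m]) (β m + β m))).1
    have b3 : 1 - 2 * (1 / (L * ℓ)) ≤ EE μ β c ℓ m 0 0 := by
      have h3 := riesz_mass μ β m (hμpos 0) hμ6 c ℓ hℓ
      have e : (1 / (2 * ℓ)) * (∫ θ in (c - ℓ)..(c + ℓ), rp μ β m θ) = EE μ β c ℓ m 0 0 := by
        unfold EE
        simp
      rw [e] at h3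
      have h4 := (abs_le.1 h3).1
      have h5 : 2 / (μ 0 * ℓ) ≤ 2 * (1 / (L * ℓ)) := by
        rw [← div_eq_mul_one_div]
        apply div_le_div_of_nonneg_left (by norm_num) hLℓ
        exact mul_le_mul_of_nonneg_right hμ1 hℓ.le
      linarith
    have h4 : 4 / (σ * (L * ℓ)) = 4 * (1 / (σ * (L * ℓ))) := by ring
    have h5 : 4 / 3 / (σ * (L * ℓ)) = 4 / 3 * (1 / (σ * (L * ℓ))) := by ring
    have h6 : 0 < 1 / (σ * (L * ℓ)) := by positivity
    rw [h5] at h1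
    rw [h4]
    have h7 := (abs_le.1 h1).1
    have h8 : 0 < 1 / (L * ℓ) := by positivity
    linarith
  -- conclusion
  obtain ⟨T, hT⟩ : ∃ T : ℝ, T = ∑ k ∈ Finset.Ico K₁ K₂, x k := ⟨_, rfl⟩
  have hT0 : 0 ≤ T := by
    rw [hT]
    exact Finset.sum_nonneg (fun k _ => hx k)
  obtain ⟨R, hR⟩ : ∃ R : ℝ, R = 4 / (σ * (L * ℓ)) := ⟨_, rfl⟩
  rw [← hR] at hnon hres
  have hlow : ∑ k ∈ Finset.Ico K₁ K₂, ((if (k - K₁) % p = r then x k else 0) * (1 / 4) - R * x k) ≤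
      ∑ k ∈ Finset.Ico K₁ K₂, x k * EE μ β c ℓ K₂ (lam k) (α k) := by
    apply Finset.sum_le_sum
    intro k hk
    by_cases h : (k - K₁) % p = r
    · rw [if_pos h]
      have := mul_le_mul_of_nonneg_left (hres k hk h) (hx k)
      linarith
    · rw [if_neg h]
      have := mul_le_mul_of_nonneg_left (hnon k hk h) (hx k)
      linarith
  rw [Finset.sum_sub_distrib, ← Finset.sum_mul, ← Finset.mul_sum, ← Finset.sum_filter, ← hT] at hlow
  rw [← hT] at hrs ⊢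
  have hRp : R ≤ 1 / (8 * (p : ℝ)) := by
    rw [hR, div_le_div_iff₀ (by positivity) (by positivity)]
    have h1 := le_trans (le_max_right _ _) hCV
    have h2 : 8 * (p : ℝ) * (4 / σ) * σ ≤ L * ℓ * σ := mul_le_mul_of_nonneg_right h1 hσ0.le
    have h3 : 8 * (p : ℝ) * (4 / σ) * σ = 8 * p * 4 := by field_simp
    linarith
  have e1 : (1 / (8 * (p : ℝ))) = (1 / (p : ℝ)) / 4 - 1 / (8 * (p : ℝ)) := by
    field_simp
    norm_num
  have h9 : (1 / (8 * (p : ℝ))) * T = (1 / (p : ℝ)) * T * (1 / 4) - 1 / (8 * (p : ℝ)) * T := by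
    nth_rewrite 1 [e1]
    ring
  have h10 := mul_le_mul_of_nonneg_right hRp hT0
  linarith

end Pool.Agent.Y295.HS
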