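import Pool.Agent.Y295.HS.A

/-! Riesz product measures of short intervals with an exponent close to one (adapted from
`Helper95.HadaInterval.riesz_interval`). -/

namespace Pool.Agent.Y295.HS

open Pool.Agent.Helper95.Hada

lemma growthA {μ : ℕ → ℝ} {A : ℝ} (hA : 0 ≤ A) (hμ : ∀ j, A * μ j ≤ μ (j + 1)) (k m : ℕ) :
    A ^ m * μ k ≤ μ (k + m) := pow_growth μ A hA hμ k m

lemma mid_boundA {μ : ℕ → ℝ} {A e : ℝ} (hA : 1 ≤ A) (he : 0 < e) (hAe : (3 / 2 : ℝ) ≤ A ^ e)
    (hμA : ∀ j, A * μ j ≤ μ (j + 1)) {ρ δ : ℝ}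
    (hδ : 0 < δ) (hδρ : δ ≤ ρ) {k d : ℕ} (h1 : d ≠ 0 → 1 / ρ < μ k)
    (h2 : ∀ j < k + d, μ j ≤ 1 / δ) :
    (3 / 2 : ℝ) ^ d ≤ (3 / 2) * (ρ / δ) ^ e := by
  have hρ : 0 < ρ := lt_of_lt_of_le hδ hδρ
  have hx1 : 1 ≤ ρ / δ := (one_le_div hδ).2 hδρ
  have hA0 : 0 ≤ A := by linarith
  rcases Nat.eq_zero_or_pos d with h0 | h0
  · subst h0
    have : (1:ℝ) ≤ (ρ / δ) ^ e := Real.one_le_rpow hx1 he.le
    rw [pow_zero]; linarith
  · obtain ⟨m, rfl⟩ : ∃ m, d = m + 1 := ⟨d - 1, by omega⟩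
    have h3 := h1 (by omega)
    have h4 := h2 (k + m) (by omega)
    have h5 := growthA hA0 hμA k m
    have h6 : A ^ m ≤ ρ / δ := by
      have h7 : A ^ m * (1 / ρ) ≤ 1 / δ := by
        have : A ^ m * (1 / ρ) ≤ A ^ m * μ k := by gcongr
        linarith
      rw [mul_one_div, div_le_iff₀ hρ] at h7
      calc A ^ m ≤ 1 / δ * ρ := h7
        _ = ρ / δ := by ring
    have h8 : ((3 / 2 : ℝ) ^ m) ≤ (ρ / δ) ^ e := by
      calc (3 / 2 : ℝ) ^ m ≤ (A ^ e) ^ m := pow_le_pow_left₀ (by norm_num) hAe m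
        _ = (A ^ m) ^ e := by
            rw [← Real.rpow_natCast, ← Real.rpow_natCast, ← Real.rpow_mul hA0, ← Real.rpow_mul hA0,
              mul_comm]
        _ ≤ (ρ / δ) ^ e := Real.rpow_le_rpow (by positivity) h6 he.le
    rw [pow_succ]
    linarith

/-- Measure of a union of short intervals, with few centres per interval of length `ρ`. -/
theorem riesz_intervalA {A e : ℝ} (hA : 1 ≤ A) (he : 0 < e) (hAe : (3 / 2 : ℝ) ≤ A ^ e)
    (hmass : ∀ (μ β : ℕ → ℝ) (n : ℕ), 0 < μ 0 → (∀ j, 6 * μ j ≤ μ (j + 1)) → ∀ (c ℓ : ℝ), 0 < ℓ →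
      |(1 / (2 * ℓ)) * (∫ θ in (c - ℓ)..(c + ℓ), rp μ β n θ) - 1| ≤ 2 / (μ 0 * ℓ))
    (μ β : ℕ → ℝ) (n : ℕ) (hμ0 : 0 < μ 0) (hμ : ∀ j, 6 * μ j ≤ μ (j + 1))
    (hμA : ∀ j, A * μ j ≤ μ (j + 1))
    (c ℓ ρ δ : ℝ) (hδ : 0 < δ) (hδρ : δ ≤ ρ) (hρℓ : ρ ≤ ℓ) (hℓ : 4 ≤ μ 0 * ℓ)
    (B : Finset ℝ) (L : ℕ) (hL : ∀ y : ℝ, (B.filter (fun b => |b - y| ≤ ρ / 2)).card ≤ L) :
    ∑ b ∈ B, (1 / (2 * ℓ)) * (∫ θ in (c - ℓ)..(c + ℓ), if |b - θ| ≤ δ then rp μ β n θ else 0)
      ≤ 1000 * L * (δ / ρ) ^ (1 - e) := by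
  have hρ : 0 < ρ := lt_of_lt_of_le hδ hδρ
  have hℓ0 : 0 < ℓ := lt_of_lt_of_le hρ hρℓ
  obtain ⟨k1, hk1n, hk1a, hk1b⟩ := exists_cut_idx hμ0 hμ (1 / ρ) n
  obtain ⟨k2, hk2n, hk2a, hk2b⟩ := exists_cut_idx hμ0 hμ (1 / δ) n
  have hinv : 1 / ρ ≤ 1 / δ := one_div_le_one_div_of_le hδ hδρ
  have hk12 : k1 ≤ k2 := by
    by_contra h
    push Not at h
    have h1 := hk1a k2 h
    have h2 := hk2b k2 le_rfl (by omega)
    linarith
  obtain ⟨d, rfl⟩ := Nat.exists_eq_add_of_le hk12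
  obtain ⟨m, rfl⟩ := Nat.exists_eq_add_of_le hk2n
  set Plo : ℝ → ℝ := rp μ β k1 with hPlo
  set Pmid : ℝ → ℝ := rp (fun j => μ (k1 + j)) (fun j => β (k1 + j)) d with hPmid
  set Phi : ℝ → ℝ := rp (fun j => μ (k1 + d + j)) (fun j => β (k1 + d + j)) m with hPhi
  have hsplit : ∀ θ, rp μ β (k1 + d + m) θ = Plo θ * Pmid θ * Phi θ := by
    intro θ
    rw [rp_split, rp_split]
  have hmid : ∀ θ, Pmid θ ≤ (3 / 2) * (ρ / δ) ^ e := fun θ =>
    (rp_le _ _ _ _).trans (mid_boundA hA he hAe hμA hδ hδρ (fun h0 => hk1b k1 le_rfl (by omega)) hk2a)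
  set M : ℝ := (3 / 2) * (ρ / δ) ^ e with hM
  have hM0 : 0 ≤ M := by positivity
  have hPlo0 : ∀ θ, 0 ≤ Plo θ := rp_nonneg _ _ _
  have hPmid0 : ∀ θ, 0 ≤ Pmid θ := rp_nonneg _ _ _
  have hPhi0 : ∀ θ, 0 ≤ Phi θ := rp_nonneg _ _ _
  have hPloc : Continuous Plo := rp_continuous _ _ _
  have hPhic : Continuous Phi := rp_continuous _ _ _
  have hPc : Continuous (rp μ β (k1 + d + m)) := rp_continuous _ _ _
  -- high part
  have hhigh : ∀ b, ∫ θ in Set.Icc (b - δ) (b + δ), Phi θ ≤ 6 * δ := by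
    intro b
    rw [MeasureTheory.integral_Icc_eq_integral_Ioc,
      ← intervalIntegral.integral_of_le (by linarith : b - δ ≤ b + δ)]
    rcases Nat.eq_zero_or_pos m with h0 | h0
    · have : Phi = fun _ => 1 := by
        funext θ
        rw [hPhi, h0]; simp [rp]
      rw [this, intervalIntegral.integral_const, smul_eq_mul]
      linarith
    · have h1 : 1 / δ < μ (k1 + d) := hk2b (k1 + d) le_rfl (by omega)
      have h2 := hmass (fun j => μ (k1 + d + j)) (fun j => β (k1 + d + j)) m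
        (mu_pos hμ0 hμ _) (fun j => hμ _) b δ hδ
      have h3 : 2 / (μ (k1 + d + 0) * δ) ≤ 2 := by
        rw [add_zero]
        have h4 : 1 < μ (k1 + d) * δ := by
          rwa [div_lt_iff₀ hδ] at h1
        rw [div_le_iff₀ (by linarith)]
        linarith
      have h5 := (abs_le.1 (h2.trans h3)).2
      have h6 : 1 / (2 * δ) * (∫ θ in (b - δ)..(b + δ), Phi θ) ≤ 3 := by linarith
      rw [one_div, inv_mul_le_iff₀ (by positivity)] at h6
      linarith
  -- low part
  have hexp : Real.exp ((6 / 5) * (1 / ρ) * (3 / 2 * ρ)) ≤ 8 := by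
    have e : (6 / 5) * (1 / ρ) * (3 / 2 * ρ) = 9 / 5 := by field_simp; norm_num
    rw [e]
    have h1 : Real.exp (9 / 5) ≤ Real.exp 1 * Real.exp 1 := by
      rw [← Real.exp_add]
      exact Real.exp_le_exp.2 (by norm_num)
    have h2 := Real.exp_one_lt_d9
    have h3 := Real.exp_pos 1
    nlinarith
  have hsum := sum_mu_le_of hμ0 hμ (by positivity : (0:ℝ) ≤ 1 / ρ) hk1a
  have hsum0 : 0 ≤ ∑ j ∈ Finset.range k1, μ j :=
    Finset.sum_nonneg fun j _ => (mu_pos hμ0 hμ j).le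
  have hlow1 : ∀ b t s, t ∈ Set.Icc (b - δ) (b + δ) → s ∈ Set.Icc (b - ρ / 2) (b + ρ / 2) →
      Plo t ≤ 8 * Plo s := by
    intro b t s ht hs
    have h1 := rp_lip β k1 (fun j => (mu_pos hμ0 hμ j).le) t s
    have h2 : |t - s| ≤ 3 / 2 * ρ := by
      rw [abs_le]
      constructor <;> linarith [ht.1, ht.2, hs.1, hs.2]
    have h3 : (∑ j ∈ Finset.range k1, μ j) * |t - s| ≤ (6 / 5) * (1 / ρ) * (3 / 2 * ρ) :=
      mul_le_mul hsum h2 (abs_nonneg _) (by positivity)
    have h4 := (Real.exp_le_exp.2 h3).trans hexp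
    calc Plo t ≤ Plo s * Real.exp ((∑ j ∈ Finset.range k1, μ j) * |t - s|) := h1
      _ ≤ Plo s * 8 := mul_le_mul_of_nonneg_left h4 (hPlo0 s)
      _ = 8 * Plo s := mul_comm _ _
  set K : ℝ → ℝ := fun b => ∫ s in Set.Icc (b - ρ / 2) (b + ρ / 2), Plo s with hK
  have hlow : ∀ b t, t ∈ Set.Icc (b - δ) (b + δ) → Plo t ≤ (8 / ρ) * K b := by
    intro b t ht
    have h1 : ∫ _s in Set.Icc (b - ρ / 2) (b + ρ / 2), Plo t ≤
        ∫ s in Set.Icc (b - ρ / 2) (b + ρ / 2), 8 * Plo s := by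
      apply MeasureTheory.setIntegral_mono_on
      · exact (continuous_const).integrableOn_Icc
      · exact (continuous_const.mul hPloc).integrableOn_Icc
      · exact measurableSet_Icc
      · intro s hs
        exact hlow1 b t s ht hs
    rw [MeasureTheory.integral_const_mul, MeasureTheory.setIntegral_const,
      Real.volume_real_Icc_of_le (by linarith), smul_eq_mul] at h1
    have h2 : b + ρ / 2 - (b - ρ / 2) = ρ := by ring
    rw [h2] at h1
    have h3 : (8 / ρ) * K b = (8 * K b) / ρ := by ring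
    rw [h3, le_div_iff₀ hρ]
    linarith
  have hK0 : ∀ b, 0 ≤ K b := fun b =>
    MeasureTheory.setIntegral_nonneg measurableSet_Icc fun s _ => hPlo0 s
  -- full integral near a centre
  have hI : ∀ b, ∫ θ in Set.Icc (b - δ) (b + δ), rp μ β (k1 + d + m) θ ≤
      (8 / ρ) * K b * M * (6 * δ) := by
    intro b
    have hc0 : 0 ≤ (8 / ρ) * K b * M := by
      have := hK0 b
      positivity
    calc ∫ θ in Set.Icc (b - δ) (b + δ), rp μ β (k1 + d + m) θ
        ≤ ∫ θ in Set.Icc (b - δ) (b + δ), (8 / ρ) * K b * M * Phi θ := by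
          apply MeasureTheory.setIntegral_mono_on
          · exact hPc.integrableOn_Icc
          · exact (continuous_const.mul hPhic).integrableOn_Icc
          · exact measurableSet_Icc
          · intro θ hθ
            rw [hsplit]
            apply mul_le_mul_of_nonneg_right _ (hPhi0 θ)
            exact mul_le_mul (hlow b θ hθ) (hmid θ) (hPmid0 θ) (by
              have := hK0 b
              positivity)
      _ = (8 / ρ) * K b * M * ∫ θ in Set.Icc (b - δ) (b + δ), Phi θ :=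
          MeasureTheory.integral_const_mul _ _
      _ ≤ (8 / ρ) * K b * M * (6 * δ) := mul_le_mul_of_nonneg_left (hhigh b) hc0
  -- the indicator integral
  have hJ : ∀ b, (∫ θ in (c - ℓ)..(c + ℓ), if |b - θ| ≤ δ then rp μ β (k1 + d + m) θ else 0) ≤
      if |b - c| ≤ 2 * ℓ then (8 / ρ) * K b * M * (6 * δ) else 0 := by
    intro b
    rw [intervalIntegral.integral_of_le (by linarith : c - ℓ ≤ c + ℓ)]
    split_ifs with hb
    · refine le_trans ?_ (hI b)
      have e : (fun θ => if |b - θ| ≤ δ then rp μ β (k1 + d + m) θ else 0) =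
          (Set.Icc (b - δ) (b + δ)).indicator (rp μ β (k1 + d + m)) := by
        funext θ
        rw [Set.indicator_apply]
        have : |b - θ| ≤ δ ↔ θ ∈ Set.Icc (b - δ) (b + δ) := by
          rw [abs_le, Set.mem_Icc]
          constructor <;> rintro ⟨h1, h2⟩ <;> constructor <;> linarith
        by_cases h : |b - θ| ≤ δ
        · rw [if_pos h, if_pos (this.1 h)]
        · rw [if_neg h, if_neg (fun h' => h (this.2 h'))]
      rw [e, MeasureTheory.setIntegral_indicator measurableSet_Icc]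
      apply MeasureTheory.setIntegral_mono_set
      · exact hPc.integrableOn_Icc
      · exact Filter.Eventually.of_forall fun θ => rp_nonneg _ _ _ _
      · exact Filter.Eventually.of_forall (fun θ hθ => hθ.2)
    · apply le_of_eq
      rw [MeasureTheory.setIntegral_congr_fun (g := fun _ => (0:ℝ)) measurableSet_Ioc]
      · simp
      · intro θ hθ
        simp only
        rw [if_neg]
        intro h
        apply hb
        have h1 : |θ - c| ≤ ℓ := by
          rw [abs_le]; constructor <;> linarith [hθ.1, hθ.2]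
        calc |b - c| = |(b - θ) + (θ - c)| := by congr 1; ring
          _ ≤ |b - θ| + |θ - c| := abs_add_le _ _
          _ ≤ 2 * ℓ := by linarith
  -- summation
  have hsumK : ∑ b ∈ B, (if |b - c| ≤ 2 * ℓ then K b else 0) ≤ L * (7 * ℓ) := by
    have h1 : ∀ b ∈ B, (if |b - c| ≤ 2 * ℓ then K b else 0) ≤
        ∫ s in Set.Icc (c - 3 * ℓ) (c + 3 * ℓ),
          (Set.Icc (b - ρ / 2) (b + ρ / 2)).indicator Plo s := by
      intro b _
      split_ifs with hb
      · rw [MeasureTheory.setIntegral_indicator measurableSet_Icc, hK]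
        rw [abs_le] at hb
        have : Set.Icc (c - 3 * ℓ) (c + 3 * ℓ) ∩ Set.Icc (b - ρ / 2) (b + ρ / 2) =
            Set.Icc (b - ρ / 2) (b + ρ / 2) := by
          apply Set.inter_eq_right.2
          intro s hs
          rw [Set.mem_Icc] at hs ⊢
          constructor <;> linarith [hs.1, hs.2, hb.1, hb.2]
        rw [this]
      · apply MeasureTheory.setIntegral_nonneg measurableSet_Icc
        intro s _
        exact Set.indicator_nonneg (fun s _ => hPlo0 s) s
    refine (Finset.sum_le_sum h1).trans ?_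
    have hint : ∀ b ∈ B, MeasureTheory.IntegrableOn
        ((Set.Icc (b - ρ / 2) (b + ρ / 2)).indicator Plo) (Set.Icc (c - 3 * ℓ) (c + 3 * ℓ)) := by
      intro b _
      exact MeasureTheory.Integrable.indicator hPloc.integrableOn_Icc measurableSet_Icc
    rw [← MeasureTheory.integral_finset_sum B hint]
    have h2 : ∫ s in Set.Icc (c - 3 * ℓ) (c + 3 * ℓ),
        ∑ b ∈ B, (Set.Icc (b - ρ / 2) (b + ρ / 2)).indicator Plo s ≤
        ∫ s in Set.Icc (c - 3 * ℓ) (c + 3 * ℓ), L * Plo s := by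
      apply MeasureTheory.setIntegral_mono_on
      · exact MeasureTheory.integrable_finset_sum B hint
      · exact (continuous_const.mul hPloc).integrableOn_Icc
      · exact measurableSet_Icc
      · intro s _
        have h3 : ∑ b ∈ B, (Set.Icc (b - ρ / 2) (b + ρ / 2)).indicator Plo s =
            ((B.filter (fun b => |b - s| ≤ ρ / 2)).card : ℝ) * Plo s := by
          rw [← nsmul_eq_mul, ← Finset.sum_const, Finset.sum_filter]
          refine Finset.sum_congr rfl fun b _ => ?_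
          rw [Set.indicator_apply]
          have : |b - s| ≤ ρ / 2 ↔ s ∈ Set.Icc (b - ρ / 2) (b + ρ / 2) := by
            rw [abs_le, Set.mem_Icc]
            constructor <;> rintro ⟨h1, h2⟩ <;> constructor <;> linarith
          by_cases h : |b - s| ≤ ρ / 2
          · rw [if_pos h, if_pos (this.1 h)]
          · rw [if_neg h, if_neg (fun h' => h (this.2 h'))]
        rw [h3]
        apply mul_le_mul_of_nonneg_right _ (hPlo0 s)
        exact_mod_cast hL s
    refine h2.trans ?_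
    rw [MeasureTheory.integral_const_mul]
    apply mul_le_mul_of_nonneg_left _ (by positivity)
    rw [MeasureTheory.integral_Icc_eq_integral_Ioc,
      ← intervalIntegral.integral_of_le (by linarith : c - 3 * ℓ ≤ c + 3 * ℓ)]
    have h4 := hmass μ β k1 hμ0 hμ c (3 * ℓ) (by positivity)
    have h5 : 2 / (μ 0 * (3 * ℓ)) ≤ 1 / 6 := by
      rw [div_le_iff₀ (by positivity)]
      linarith
    have h6 := (abs_le.1 (h4.trans h5)).2
    have h7 : 1 / (2 * (3 * ℓ)) * (∫ θ in (c - 3 * ℓ)..(c + 3 * ℓ), Plo θ) ≤ 7 / 6 := by linarith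
    rw [one_div, inv_mul_le_iff₀ (by positivity)] at h7
    linarith
  have hfinal : ∑ b ∈ B, (1 / (2 * ℓ)) *
      (∫ θ in (c - ℓ)..(c + ℓ), if |b - θ| ≤ δ then rp μ β (k1 + d + m) θ else 0) ≤
      (1 / (2 * ℓ)) * ((8 / ρ) * M * (6 * δ)) * (L * (7 * ℓ)) := by
    calc ∑ b ∈ B, (1 / (2 * ℓ)) *
        (∫ θ in (c - ℓ)..(c + ℓ), if |b - θ| ≤ δ then rp μ β (k1 + d + m) θ else 0)
        ≤ ∑ b ∈ B, (1 / (2 * ℓ)) *
          (if |b - c| ≤ 2 * ℓ then (8 / ρ) * K b * M * (6 * δ) else 0) := by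
          apply Finset.sum_le_sum
          intro b _
          exact mul_le_mul_of_nonneg_left (hJ b) (by positivity)
      _ = (1 / (2 * ℓ)) * ((8 / ρ) * M * (6 * δ)) *
          ∑ b ∈ B, (if |b - c| ≤ 2 * ℓ then K b else 0) := by
          rw [Finset.mul_sum]
          refine Finset.sum_congr rfl fun b _ => ?_
          split_ifs
          · ring
          · ring
      _ ≤ (1 / (2 * ℓ)) * ((8 / ρ) * M * (6 * δ)) * (L * (7 * ℓ)) :=
          mul_le_mul_of_nonneg_left hsumK (by positivity)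
  refine hfinal.trans ?_
  have hxy : (ρ / δ) ^ e * (δ / ρ) = (δ / ρ) ^ (1 - e) := by
    have h1 : ρ / δ = (δ / ρ)⁻¹ := by rw [inv_div]
    rw [h1, Real.inv_rpow (by positivity), ← Real.rpow_neg (by positivity)]
    have h2 : (δ / ρ) = (δ / ρ) ^ (1:ℝ) := (Real.rpow_one _).symm
    nth_rewrite 2 [h2]
    rw [← Real.rpow_add (by positivity)]
    congr 1
    ring
  have e1 : (1 / (2 * ℓ)) * ((8 / ρ) * M * (6 * δ)) * (L * (7 * ℓ)) =
      252 * L * ((ρ / δ) ^ e * (δ / ρ)) := by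
    rw [hM]; field_simp; ring
  rw [e1, hxy]
  have : 0 ≤ (L : ℝ) * (δ / ρ) ^ (1 - e) := by positivity
  nlinarith

end Pool.Agent.Y295.HS
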