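import Pool.Agent.Y295.HS.C

/-! Parameters and the step of the construction with the potential of exponent `σ` (adapted from
`Helper95.HadaStep`). -/

open Filter Topology Set

namespace Pool.Agent.Y295.HS

open Pool.Agent.Helper95.Hada

/-- all numerical parameters, depending on `q` and on the exponents `σ`, `e` -/
structure ParS (q σ e : ℝ) extends Par q where
  A : ℝ
  hA : 1 ≤ A
  hAe : (3 / 2 : ℝ) ≤ A ^ e
  driftA : ∀ (lam x α : ℕ → ℝ) (K₁ K₂ : ℕ) (c ℓ : ℝ), (∀ k, 0 < lam k) →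
      (∀ k, q * lam k ≤ lam (k + 1)) → (∀ k, 0 ≤ x k) → 0 < ℓ → CV ≤ lam K₁ * ℓ →
      ∃ (μ β : ℕ → ℝ) (n : ℕ), lam K₁ ≤ μ 0 ∧ (∀ j, 6 * μ j ≤ μ (j + 1)) ∧
        (∀ j, A * μ j ≤ μ (j + 1)) ∧
        (1 / (8 * (p : ℝ))) * (∑ k ∈ Finset.Ico K₁ K₂, x k) ≤
          (1 / (2 * ℓ)) * ∫ θ in (c - ℓ)..(c + ℓ),
            rp μ β n θ * ∑ k ∈ Finset.Ico K₁ K₂, x k * Real.cos (lam k * θ + α k)
  Cs2S : Real.log (1 + (c / 40) * (c / 20)) ≤ (c / 24000) ^ (1 / e) * Cs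

namespace ParS
variable {q σ e : ℝ} (R : ParS q σ e)
/-- threshold of the potential -/
noncomputable def w : ℝ := (R.c / 24000) ^ (σ / e)
/-- ratio of consecutive scales -/
noncomputable def r₀ : ℝ := (R.c / 24000) ^ (1 / e)

theorem base_pos : 0 < R.c / 24000 := by
  have := R.c_pos
  positivity

theorem base_le : R.c / 24000 ≤ 1 / 768000 := by
  have := R.c_le
  linarith

theorem w_pos : 0 < R.w := Real.rpow_pos_of_pos R.base_pos _

theorem r₀_pos : 0 < R.r₀ := Real.rpow_pos_of_pos R.base_pos _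

theorem w_le (he : 0 < e) (heσ : e ≤ σ) : R.w ≤ 1 / 768000 := by
  have h1 : R.w ≤ (R.c / 24000) ^ (1 : ℝ) := by
    apply Real.rpow_le_rpow_of_exponent_ge R.base_pos
    · linarith [R.base_le]
    · rw [le_div_iff₀ he]; linarith
  rw [Real.rpow_one] at h1
  exact h1.trans R.base_le

theorem r₀_le (he : 0 < e) (he1 : e ≤ 1) : R.r₀ ≤ 1 / 768000 := by
  have h1 : R.r₀ ≤ (R.c / 24000) ^ (1 : ℝ) := by
    apply Real.rpow_le_rpow_of_exponent_ge R.base_pos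
    · linarith [R.base_le]
    · rw [le_div_iff₀ he]; linarith
  rw [Real.rpow_one] at h1
  exact h1.trans R.base_le

theorem w_cond (hσ : 0 < σ) (he : 0 < e) : 24000 * R.w ^ (e / σ) ≤ R.c := by
  have h1 : R.w ^ (e / σ) = R.c / 24000 := by
    unfold w
    rw [← Real.rpow_mul R.base_pos.le]
    have : σ / e * (e / σ) = 1 := by field_simp
    rw [this, Real.rpow_one]
  rw [h1]; linarith

theorem r₀_cond (he : 0 < e) : 24000 * R.r₀ ^ e ≤ R.c := by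
  have h1 : R.r₀ ^ e = R.c / 24000 := by
    unfold r₀
    rw [← Real.rpow_mul R.base_pos.le]
    have : 1 / e * e = 1 := by field_simp
    rw [this, Real.rpow_one]
  rw [h1]; linarith

end ParS

theorem exists_parS (q : ℝ) (hq : 1 < q) (σ e : ℝ) (he : 0 < e) : Nonempty (ParS q σ e) := by
  -- the ratio `A`
  obtain ⟨A, hA, hAe⟩ : ∃ A : ℝ, 1 ≤ A ∧ (3 / 2 : ℝ) ≤ A ^ e := by
    refine ⟨(3 / 2 : ℝ) ^ (1 / e), Real.one_le_rpow (by norm_num) (by positivity), ?_⟩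
    rw [← Real.rpow_mul (by norm_num)]
    have : 1 / e * e = 1 := by field_simp
    rw [this, Real.rpow_one]
  obtain ⟨p, hp, CV, hCV, hdrift⟩ := riesz_drift_A q hq A
  have hp' : (0 : ℝ) < p := by exact_mod_cast hp
  have hp1 : (1 : ℝ) ≤ p := by exact_mod_cast hp
  set c : ℝ := 1 / (32 * (p : ℝ)) with hc
  have hcpos : 0 < c := by positivity
  have hcle : c ≤ 1 / 32 := by
    rw [hc]
    apply one_div_le_one_div_of_le (by norm_num)
    linarith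
  set E : ℝ := Real.log (1 + (c / 40) * (c / 20)) with hE
  have h1 : 0 < (c / 24000) ^ 4 := by positivity
  have h2 : 0 < c ^ 2 / 16 := by positivity
  have h3 : 0 < (c / 24000) ^ (1 / e) := by positivity
  set Cs : ℝ := max (max 2 (CV / (c ^ 2 / 16)))
    (max (E / (c / 24000) ^ 4) (max (E / (c ^ 2 / 16)) (E / (c / 24000) ^ (1 / e)))) with hCs
  have hm1 : CV / (c ^ 2 / 16) ≤ Cs := (le_max_right _ _).trans (le_max_left _ _)
  have hm2 : E / (c / 24000) ^ 4 ≤ Cs := (le_max_left _ _).trans (le_max_right _ _)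
  have hm3 : E / (c ^ 2 / 16) ≤ Cs :=
    ((le_max_left _ _).trans (le_max_right _ _)).trans (le_max_right _ _)
  have hm4 : E / (c / 24000) ^ (1 / e) ≤ Cs :=
    ((le_max_right _ _).trans (le_max_right _ _)).trans (le_max_right _ _)
  have hm0 : (2 : ℝ) ≤ Cs := (le_max_left _ _).trans (le_max_left _ _)
  exact ⟨{
    p := p
    CV := CV
    c := c
    Cs := Cs
    hp := hp
    hCV := hCV
    drift := fun lam x α K₁ K₂ c' ℓ a1 a2 a3 a4 a5 => by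
      obtain ⟨μ, β, n, b1, b2, -, b4⟩ := hdrift lam x α K₁ K₂ c' ℓ a1 a2 a3 a4 a5
      exact ⟨μ, β, n, b1, b2, b4⟩
    c_pos := hcpos
    c_le := hcle
    c_eq := by rw [hc]; field_simp; norm_num
    one_lt_Cs := by linarith
    Cs1 := by rw [div_le_iff₀ h2] at hm1; linarith
    Cs2 := by rw [div_le_iff₀ h1] at hm2; linarith
    Cs3 := by rw [div_le_iff₀ h2] at hm3; linarith
    A := A
    hA := hA
    hAe := hAe
    driftA := hdrift
    Cs2S := by rw [div_le_iff₀ h3] at hm4; linarith }⟩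

/-- one window: from the cut `C` at `g` to the cut `C'` at `g' > g` -/
theorem stepS {q σ e : ℝ} (hσ : 0 < σ) (he : 0 < e) (hσe : σ + e = 1 - e) (heσ : e ≤ σ)
    (R : ParS q σ e) {S : Ser} (hq : S.q = q) (L : Lev S R.d) {g g' : ℕ} (hgg' : g < g')
    (C : Cut L R.Cs R.ε₁ R.κ g) (C' : Cut L R.Cs R.ε₁ R.κ g') (θ₀ : ℝ) (hG : Good R.toPar L C θ₀)
    (Pold : Finset (ℝ × ℝ)) (hPold : ∀ b ∈ Pold, 0 < b.2) (hW : Ws σ Pold θ₀ (R.ε / C.Λ) < R.w)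
    (N : Finset ℕ) (hN : ∀ n ∈ N, g < n ∧ n + 1 < g')
    (τ : ℕ → ℝ) (B : ℕ → Finset ℝ) (Lm : ℕ)
    (hB : ∀ n ∈ N, ∀ y : ℝ, ((B n).filter (fun b => |b - y| ≤ (L.η (n + 2) / 9) / 2)).card ≤ Lm)
    (hτ : ∀ n ∈ N, 0 < τ n) (hτ' : ∀ n ∈ N, τ n ≤ 1 / 2)
    (hsum : 24000 * Lm * ∑ n ∈ N, (τ n) ^ σ ≤ R.c * R.w) :
    R.ε / C'.Λ ≤ R.r₀ * (R.ε / C.Λ) ∧
    ∃ θ : ℝ, |θ - θ₀| ≤ R.ε / C.Λ ∧ Good R.toPar L C' θ ∧
      Ws σ (Pold ∪ N.biUnion (fun n => (B n).image (fun b => (b, τ n * (L.η (n + 2) / 9))))) θ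
        (R.ε / C'.Λ) < R.w := by
  have hc := R.c_pos
  have hc1 := R.c_le
  have hκ : R.κ = R.c / 40 := rfl
  have hκ' : R.κ' = R.c / 4 := rfl
  have hε : R.ε = R.c ^ 2 / 16 := rfl
  have hd : R.d = R.c / 20 := rfl
  have hCs : 1 < R.Cs := R.one_lt_Cs
  have hCs0 : 0 < R.Cs := by linarith
  have hεpos : 0 < R.ε := by rw [hε]; positivity
  have hκpos : 0 < R.κ := by rw [hκ]; positivity
  have hdpos : 0 < R.d := by rw [hd]; positivity
  have hr₀pos : 0 < R.r₀ := R.r₀_pos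
  have hwpos : 0 < R.w := R.w_pos
  have he1 : e ≤ 1 := by linarith
  have hκd : 0 < R.κ * R.d := mul_pos hκpos hdpos
  have hκ1 : R.κ ≤ 1 := by rw [hκ]; linarith
  have hd1 : R.d ≤ 1 := by rw [hd]; linarith
  have hκd1 : R.κ * R.d ≤ 1 := by
    calc R.κ * R.d ≤ 1 * 1 := mul_le_mul hκ1 hd1 hdpos.le zero_le_one
      _ = 1 := one_mul 1
  have hr₀1 : R.r₀ ≤ 1 / 2 := (R.r₀_le he he1).trans (by norm_num)
  have hε36 : 36 * R.ε ≤ 1 := by
    rw [hε]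
    exact num36 hc hc1
  have hε₁ : R.ε₁ = Real.log (1 + R.κ * R.d) := rfl
  have hε₁pos : 0 < R.ε₁ := by rw [hε₁]; exact Real.log_pos (by linarith)
  have hε₁le : R.ε₁ ≤ R.κ * R.d := by
    rw [hε₁]
    have := Real.log_le_sub_one_of_pos (show 0 < 1 + R.κ * R.d by linarith)
    linarith
  have hexpε₁ : Real.exp R.ε₁ = 1 + R.κ * R.d := Real.exp_log (by linarith)
  have hCs1 : R.CV ≤ R.ε * R.Cs := R.Cs1
  have hCs2 : R.ε₁ ≤ R.r₀ * R.Cs := R.Cs2S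
  have hCs3 : R.ε₁ ≤ R.ε * R.Cs := R.Cs3
  have hη1 : L.η g' ≤ L.η (g + 1) := L.η_anti hgg'
  have hΛ := C.hΛ
  have hΛ' := C'.hΛ
  have hηg := L.η_pos (g + 1)
  have hupper := C.upper
  have hlower : 1 ≤ C'.Λ * L.η (g + 1) :=
    C'.lower.trans (mul_le_mul_of_nonneg_left hη1 hΛ'.le)
  have hr1 : C.Λ * L.η (g + 1) ≤ R.r₀ := by
    have h2 : R.Cs * (C.Λ * L.η (g + 1)) ≤ R.Cs * R.r₀ := by
      calc R.Cs * (C.Λ * L.η (g + 1)) = R.Cs * C.Λ * L.η (g + 1) := by ring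
        _ ≤ R.ε₁ := hupper
        _ ≤ R.r₀ * R.Cs := hCs2
        _ = R.Cs * R.r₀ := mul_comm _ _
    exact le_of_mul_le_mul_left h2 hCs0
  have hr2 : C.Λ ≤ R.r₀ * C'.Λ := by
    have h2 : C.Λ * L.η (g + 1) ≤ (R.r₀ * C'.Λ) * L.η (g + 1) := by
      calc C.Λ * L.η (g + 1) ≤ R.r₀ := hr1
        _ = R.r₀ * 1 := (mul_one _).symm
        _ ≤ R.r₀ * (C'.Λ * L.η (g + 1)) := mul_le_mul_of_nonneg_left hlower hr₀pos.le
        _ = (R.r₀ * C'.Λ) * L.η (g + 1) := by ring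
    exact le_of_mul_le_mul_right h2 hηg
  set ℓ := R.ε / C.Λ with hℓ
  set ℓ' := R.ε / C'.Λ with hℓ'
  have hℓΛ : ℓ * C.Λ = R.ε := div_mul_cancel₀ _ hΛ.ne'
  have hℓ'Λ : ℓ' * C'.Λ = R.ε := div_mul_cancel₀ _ hΛ'.ne'
  have hℓpos : 0 < ℓ := div_pos hεpos hΛ
  have hℓ'pos : 0 < ℓ' := div_pos hεpos hΛ'
  have hgoal1 : ℓ' ≤ R.r₀ * ℓ := by
    have h2 : ℓ' * C.Λ ≤ (R.r₀ * ℓ) * C.Λ := by
      calc ℓ' * C.Λ ≤ ℓ' * (R.r₀ * C'.Λ) := mul_le_mul_of_nonneg_left hr2 hℓ'pos.le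
        _ = R.r₀ * (ℓ' * C'.Λ) := by ring
        _ = R.r₀ * (ℓ * C.Λ) := by rw [hℓ'Λ, hℓΛ]
        _ = (R.r₀ * ℓ) * C.Λ := by ring
    exact le_of_mul_le_mul_right h2 hΛ
  refine ⟨hgoal1, ?_⟩
  have hℓ'2 : 2 * ℓ' ≤ ℓ := by
    have h2 : R.r₀ * ℓ ≤ 1 / 2 * ℓ := mul_le_mul_of_nonneg_right hr₀1 hℓpos.le
    linarith
  -- `K' ≤ C'.K`
  have hCsΛ : R.Cs * C.Λ ≤ C'.Λ := by
    have h2 : (R.Cs * C.Λ) * L.η (g + 1) ≤ C'.Λ * L.η (g + 1) := by
      calc R.Cs * C.Λ * L.η (g + 1) ≤ R.ε₁ := hupper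
        _ ≤ 1 := hε₁le.trans hκd1
        _ ≤ C'.Λ * L.η (g + 1) := hlower
    exact le_of_mul_le_mul_right h2 hηg
  have hKK : C.K' ≤ C'.K := by
    by_contra hcon
    push Not at hcon
    have h2 := C.hK' _ hcon
    have h3 := C'.hK2 C'.K le_rfl
    linarith
  have hlamK : R.CV ≤ S.lam C.K' * ℓ := by
    have h2 := C.hK'2 C.K' le_rfl
    calc R.CV ≤ R.ε * R.Cs := hCs1
      _ = (R.Cs * C.Λ) * ℓ := by rw [← hℓΛ]; ring
      _ ≤ S.lam C.K' * ℓ := mul_le_mul_of_nonneg_right h2.le hℓpos.le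
  -- notation
  set Mn := (1 + R.d) ^ (g + 1) with hMn
  set MN := (1 + R.d) ^ (g' + 1) with hMN
  have hMnpos : 0 < Mn := by positivity
  have hT0 : R.d * Mn ≤ MN - Mn := by
    have h2 : (1 + R.d) ^ (g + 1 + 1) ≤ MN :=
      pow_le_pow_right₀ (by linarith) (by omega)
    rw [pow_succ] at h2
    have h3 : (1 + R.d) ^ (g + 1) * (1 + R.d) = Mn + R.d * Mn := by rw [hMn]; ring
    rw [h3] at h2
    linarith
  set T := MN - Mn with hT
  have hTpos : 0 < T := lt_of_lt_of_le (mul_pos hdpos hMnpos) hT0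
  set sn := L.s (g + 1) with hsn
  set sN := L.s (g' + 1) with hsN
  have hsNn : sN ≤ sn := L.anti.antitone (by omega)
  have hsnpos : 0 < sn := L.s_pos _
  set z₀ := S.P C.K sn θ₀ with hz₀
  have hz₀l : (R.c * (73 / 100)) * Mn ≤ ‖z₀‖ := hG.large θ₀ (by
    rw [sub_self, abs_zero]; positivity)
  have hz₀pos : 0 < ‖z₀‖ := lt_of_lt_of_le (by positivity) hz₀l
  have hz₀ne : z₀ ≠ 0 := norm_pos_iff.1 hz₀pos
  set u : ℂ := (starRingEnd ℂ) (z₀ / ‖z₀‖) with hu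
  have hu1 : ‖u‖ = 1 := by
    rw [hu, RCLike.norm_conj, norm_div, Complex.norm_real, Real.norm_eq_abs, abs_of_pos hz₀pos,
      div_self hz₀pos.ne']
  set α : ℕ → ℝ := fun k => Complex.arg (u * S.a k) with hα
  set V : ℝ := ∑ k ∈ Finset.Ico C.K' C'.K, S.x k sN with hVdef
  have hV0 : 0 ≤ V := Finset.sum_nonneg fun k _ => S.x_nonneg k sN
  set X : ℝ → ℝ := fun θ => ∑ k ∈ Finset.Ico C.K' C'.K, S.x k sN * Real.cos (S.lam k * θ + α k)
    with hX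
  set Vs : ℝ → ℂ := fun θ => ∑ k ∈ Finset.Ico C.K' C'.K, S.tm k sN θ with hVs
  have hXVs : ∀ θ, (u * Vs θ).re = X θ := by
    intro θ
    simp only [hVs, hX, Finset.mul_sum, Complex.re_sum]
    exact Finset.sum_congr rfl fun k _ => S.re_tm hu1 k sN θ
  have hVsV : ∀ θ, ‖Vs θ‖ ≤ V := by
    intro θ
    refine (norm_sum_le _ _).trans (le_of_eq ?_)
    exact Finset.sum_congr rfl fun k _ => S.norm_tm k sN θ
  have hXcont : Continuous X := by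
    simp only [hX]
    fun_prop
  have hXV : ∀ θ, X θ ≤ V := by
    intro θ
    refine Finset.sum_le_sum fun k _ => ?_
    calc S.x k sN * Real.cos (S.lam k * θ + α k) ≤ S.x k sN * 1 :=
          mul_le_mul_of_nonneg_left (Real.cos_le_one _) (S.x_nonneg k sN)
      _ = S.x k sN := mul_one _
  obtain ⟨μ, β, nn, hμK, hμ6, hμA, hdr⟩ := R.driftA S.lam (fun k => S.x k sN) α C.K' C'.K θ₀ ℓ
    S.lam_pos (fun k => by rw [← hq]; exact S.ratio k) (fun k => S.x_nonneg k sN) hℓpos hlamK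
  have hμ0 : 0 < μ 0 := lt_of_lt_of_le (S.lam_pos _) hμK
  have hμℓ : 4 ≤ μ 0 * ℓ :=
    (R.hCV.trans hlamK).trans (mul_le_mul_of_nonneg_right hμK hℓpos.le)
  obtain ⟨θ', hθ', hXθ', hWθ'⟩ := selects hσ he hσe R.hA R.hAe R.c R.w R.r₀ hc hc1 hwpos
    ((R.w_le he heσ).trans (by norm_num)) (R.w_cond hσ he) hr₀pos
    ((R.r₀_le he he1).trans (by norm_num)) (R.r₀_cond he) μ β nn hμ0 hμ6 hμA θ₀ ℓ ℓ' T V R.κ
    hℓ'pos hgoal1 hμℓ hTpos hκpos hV0 X hXcont hXV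
    (by rw [← R.c_eq]; exact hdr) Pold hPold hW N (fun n => L.η (n + 2) / 9) τ B Lm hB
    (by
      intro n hn
      have h2 : L.η g' ≤ L.η (n + 2) := L.η_anti (by have := (hN n hn).2; omega)
      have h3 := C'.lower
      have h4 : ℓ' ≤ R.ε * L.η g' := by
        calc ℓ' = ℓ' * 1 := (mul_one _).symm
          _ ≤ ℓ' * (C'.Λ * L.η g') := mul_le_mul_of_nonneg_left h3 hℓ'pos.le
          _ = (ℓ' * C'.Λ) * L.η g' := by ring
          _ = R.ε * L.η g' := by rw [hℓ'Λ]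
      have h5 : 36 * (R.ε * L.η g') ≤ L.η g' := by
        have := mul_le_mul_of_nonneg_right hε36 (L.η_pos g').le
        linarith
      show 4 * ℓ' ≤ L.η (n + 2) / 9
      linarith)
    (by
      intro n hn
      have h2 : L.η (n + 2) ≤ L.η (g + 1) := L.η_anti (by have := (hN n hn).1; omega)
      have h3 : L.η (g + 1) * C.Λ ≤ ℓ * C.Λ := by
        rw [hℓΛ]
        have h4 : R.Cs * (L.η (g + 1) * C.Λ) ≤ R.Cs * R.ε := by
          calc R.Cs * (L.η (g + 1) * C.Λ) = R.Cs * C.Λ * L.η (g + 1) := by ring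
            _ ≤ R.ε₁ := hupper
            _ ≤ R.ε * R.Cs := hCs3
            _ = R.Cs * R.ε := mul_comm _ _
        exact le_of_mul_le_mul_left h4 hCs0
      have h5 : L.η (g + 1) ≤ ℓ := le_of_mul_le_mul_right h3 hΛ
      have h6 := L.η_pos (n + 2)
      show L.η (n + 2) / 9 ≤ ℓ
      linarith)
    hτ hτ' hsum
  refine ⟨θ', hθ', ?_, hWθ'⟩
  intro θ hθ
  have hθ0 : |θ - θ₀| ≤ 2 * ℓ := by
    have h2 : θ - θ₀ = (θ - θ') + (θ' - θ₀) := by ring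
    rw [h2]
    refine (abs_add_le _ _).trans ?_
    linarith
  set z := S.P C.K sn θ with hz
  have hzl : (R.c * (73 / 100)) * Mn ≤ ‖z‖ := hG.large θ hθ0
  have hzpos : 0 < ‖z‖ := lt_of_lt_of_le (by positivity) hzl
  have hzne : z ≠ 0 := norm_pos_iff.1 hzpos
  have hzG : R.c * S.m C.K sn - R.κ' * Mn ≤ ‖z‖ := hG θ hθ0
  set m := S.m C.K sn with hm
  have hmM : m ≤ Mn := by
    have := S.m_le_M C.K hsnpos
    rwa [L.hM] at this
  have hm0 : 0 ≤ m := Finset.sum_nonneg fun k _ => S.x_nonneg k sn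
  have hzz : ‖z - z₀‖ ≤ 2 * R.ε * Mn := by
    have h2 := S.norm_P_sub_P_le C.K C.Λ C.hK sn θ θ₀
    refine h2.trans ?_
    calc C.Λ * |θ - θ₀| * m ≤ C.Λ * (2 * ℓ) * m := by gcongr
      _ = 2 * (ℓ * C.Λ) * m := by ring
      _ = 2 * R.ε * m := by rw [hℓΛ]
      _ ≤ 2 * R.ε * Mn := by gcongr
  have hδ : 2 * ‖z - z₀‖ / ‖z₀‖ ≤ R.c / 2 := by
    rw [div_le_iff₀ hz₀pos]
    have h2 : 2 * (2 * R.ε * Mn) ≤ R.c / 2 * ((R.c * (73 / 100)) * Mn) := by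
      rw [hε]
      have h3 : 0 < R.c ^ 2 * Mn := by positivity
      calc 2 * (2 * (R.c ^ 2 / 16) * Mn) = 1 / 4 * (R.c ^ 2 * Mn) := by ring
        _ ≤ 73 / 200 * (R.c ^ 2 * Mn) := by linarith
        _ = R.c / 2 * ((R.c * (73 / 100)) * Mn) := by ring
    calc 2 * ‖z - z₀‖ ≤ 2 * (2 * R.ε * Mn) := by linarith
      _ ≤ R.c / 2 * ((R.c * (73 / 100)) * Mn) := h2
      _ ≤ R.c / 2 * ‖z₀‖ := by gcongr
  have hdir := lower_dir hzne hz₀ne (hVsV θ) hδ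
  have hdir' : ‖z‖ + X θ - R.c / 2 * V ≤ ‖z + Vs θ‖ := by
    rw [← hXVs θ]
    exact hdir
  have hXX : X θ' - 2 * R.ε * V ≤ X θ := by
    have h2 : |X θ' - X θ| ≤ 2 * R.ε * V := by
      rw [hX]
      simp only
      rw [← Finset.sum_sub_distrib]
      refine (Finset.abs_sum_le_sum_abs _ _).trans ?_
      rw [hVdef, Finset.mul_sum]
      refine Finset.sum_le_sum fun k hk => ?_
      have hk' : S.lam k ≤ C'.Λ := C'.hK k (Finset.mem_Ico.1 hk).2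
      rw [← mul_sub, abs_mul, abs_of_nonneg (S.x_nonneg k sN), mul_comm]
      refine mul_le_mul_of_nonneg_right ?_ (S.x_nonneg k sN)
      refine (Real.abs_cos_sub_cos_le _ _).trans ?_
      have h3 : S.lam k * θ' + α k - (S.lam k * θ + α k) = S.lam k * (θ' - θ) := by ring
      rw [h3, abs_mul, abs_of_pos (S.lam_pos k), abs_sub_comm]
      calc S.lam k * |θ - θ'| ≤ C'.Λ * (2 * ℓ') := by
            refine mul_le_mul hk' hθ (abs_nonneg _) hΛ'.le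
        _ = 2 * (ℓ' * C'.Λ) := by ring
        _ = 2 * R.ε := by rw [hℓ'Λ]
    have h3 := (abs_le.1 h2).2
    linarith
  -- growth
  have hgrA : ∀ k < C.K', Real.exp (S.lam k * L.η (g + 1)) ≤ 1 + R.κ * R.d := by
    intro k hk
    rw [← hexpε₁]
    apply Real.exp_le_exp.2
    calc S.lam k * L.η (g + 1) ≤ (R.Cs * C.Λ) * L.η (g + 1) :=
          mul_le_mul_of_nonneg_right (C.hK' k hk) hηg.le
      _ ≤ R.ε₁ := hupper
  have hgr1 : S.m C.K sN ≤ m + R.κ * T :=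
    L.growth (g + 1) (g' + 1) (by omega) R.κ hκpos.le hκ1 (Finset.range C.K)
      (fun k hk => hgrA k (lt_of_lt_of_le (Finset.mem_range.1 hk) C.hKK'))
  have hgr2 : ∑ k ∈ Finset.Ico C.K C.K', S.x k sN ≤
      ∑ k ∈ Finset.Ico C.K C.K', S.x k sn + R.κ * T :=
    L.growth (g + 1) (g' + 1) (by omega) R.κ hκpos.le hκ1 (Finset.Ico C.K C.K')
      (fun k hk => hgrA k (Finset.mem_Ico.1 hk).2)
  have hmid : ∑ k ∈ Finset.Ico C.K C.K', S.x k sn ≤ R.κ * T := by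
    have h2 := C.mid_le
    have h3 : S.m C.K' sn - S.m C.K sn = ∑ k ∈ Finset.Ico C.K C.K', S.x k sn := by
      rw [Ser.m, Ser.m, Finset.sum_Ico_eq_sub _ C.hKK']
    rw [h3] at h2
    refine h2.trans ?_
    calc R.κ * R.d * Mn = R.κ * (R.d * Mn) := by ring
      _ ≤ R.κ * T := mul_le_mul_of_nonneg_left hT0 hκpos.le
  have hgr2' : ∑ k ∈ Finset.Ico C.K C.K', S.x k sN ≤ 2 * (R.κ * T) := by linarith
  -- the decomposition
  have hdec : S.P C'.K sN θ = (z + Vs θ) + (∑ k ∈ Finset.range C.K, (S.tm k sN θ - S.tm k sn θ)) +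
      ∑ k ∈ Finset.Ico C.K C.K', S.tm k sN θ := by
    have h2 : S.P C'.K sN θ = ∑ k ∈ Finset.range C.K, S.tm k sN θ +
        ∑ k ∈ Finset.Ico C.K C.K', S.tm k sN θ + Vs θ := by
      rw [Ser.P_eq, ← Finset.sum_range_add_sum_Ico _ hKK,
        ← Finset.sum_range_add_sum_Ico _ C.hKK']
    rw [h2, Finset.sum_sub_distrib, hz, Ser.P_eq]
    ring
  have hmdec : S.m C'.K sN = S.m C.K sN + ∑ k ∈ Finset.Ico C.K C.K', S.x k sN + V := by
    rw [Ser.m, ← Finset.sum_range_add_sum_Ico _ hKK, ← Finset.sum_range_add_sum_Ico _ C.hKK']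
    rfl
  have hE1 : ‖∑ k ∈ Finset.range C.K, (S.tm k sN θ - S.tm k sn θ)‖ ≤ R.κ * T := by
    refine (norm_sum_le _ _).trans ?_
    have h2 : ∑ k ∈ Finset.range C.K, ‖S.tm k sN θ - S.tm k sn θ‖ = S.m C.K sN - m := by
      rw [hm, Ser.m, Ser.m, ← Finset.sum_sub_distrib]
      exact Finset.sum_congr rfl fun k _ => S.norm_tm_sub k hsNn θ
    rw [h2]
    linarith
  have hE2 : ‖∑ k ∈ Finset.Ico C.K C.K', S.tm k sN θ‖ ≤ 2 * (R.κ * T) := by
    refine (norm_sum_le _ _).trans ?_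
    have h2 : ∑ k ∈ Finset.Ico C.K C.K', ‖S.tm k sN θ‖ = ∑ k ∈ Finset.Ico C.K C.K', S.x k sN :=
      Finset.sum_congr rfl fun k _ => S.norm_tm k sN θ
    rw [h2]
    exact hgr2'
  have hfin : ‖z + Vs θ‖ - 3 * (R.κ * T) ≤ ‖S.P C'.K sN θ‖ := by
    rw [hdec]
    have h2 := norm_sub_norm_le (z + Vs θ)
      (-((∑ k ∈ Finset.range C.K, (S.tm k sN θ - S.tm k sn θ)) +
        ∑ k ∈ Finset.Ico C.K C.K', S.tm k sN θ))
    rw [norm_neg, sub_neg_eq_add, ← add_assoc] at h2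
    have h3 := norm_add_le (∑ k ∈ Finset.range C.K, (S.tm k sN θ - S.tm k sn θ))
      (∑ k ∈ Finset.Ico C.K C.K', S.tm k sN θ)
    linarith
  show R.c * S.m C'.K sN - R.κ' * MN ≤ ‖S.P C'.K sN θ‖
  have hm' : S.m C'.K sN ≤ m + 3 * (R.κ * T) + V := by
    rw [hmdec]
    linarith
  have hcm : R.c * S.m C'.K sN ≤ R.c * m + R.κ * T + R.c * V := by
    have h2 : R.c * S.m C'.K sN ≤ R.c * (m + 3 * (R.κ * T) + V) :=
      mul_le_mul_of_nonneg_left hm' hc.le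
    have h3 : R.c * (3 * (R.κ * T)) ≤ R.κ * T := by
      have h4 : 0 < R.κ * T := mul_pos hκpos hTpos
      have h5 : R.c * (3 * (R.κ * T)) ≤ 1 / 32 * (3 * (R.κ * T)) :=
        mul_le_mul_of_nonneg_right hc1 (by linarith)
      linarith
    have h6 : R.c * (m + 3 * (R.κ * T) + V) = R.c * m + R.c * (3 * (R.κ * T)) + R.c * V := by
      ring
    rw [h6] at h2
    linarith
  have hεV : 2 * R.ε * V ≤ R.c / 2 * V := by
    refine mul_le_mul_of_nonneg_right ?_ hV0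
    rw [hε]
    exact num2 hc hc1
  have hκκ : 5 * (R.κ * T) ≤ R.κ' * T := by
    rw [hκ, hκ']
    have h2 : 0 < R.c * T := mul_pos hc hTpos
    calc 5 * (R.c / 40 * T) = 1 / 8 * (R.c * T) := by ring
      _ ≤ 1 / 4 * (R.c * T) := by linarith
      _ = R.c / 4 * T := by ring
  have hMNT : R.κ' * MN = R.κ' * Mn + R.κ' * T := by rw [hT]; ring
  have hc2 : R.c / 2 * V = 1 / 2 * (R.c * V) := by ring
  have hc3 : 2 * R.c * V = 2 * (R.c * V) := by ring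
  rw [hc3] at hXθ'
  rw [hc2] at hdir' hεV
  linarith

end Pool.Agent.Y295.HS
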