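import Pool.Agent.Y295.HS.D

/-! Localised start of the construction with exponent `σ` (adapted from `HR/A.lean`). -/

open Filter Topology Set

namespace Pool.Agent.Y295.HS

open Pool.Agent.Helper95.Hada Pool.Agent.Y295.HR

theorem Ws_le_sum (σ : ℝ) (P : Finset (ℝ × ℝ)) (θ : ℝ) {ℓ : ℝ} (hℓ : 0 < ℓ)
    (hP : ∀ b ∈ P, 0 < b.2) :
    Ws σ P θ ℓ ≤ (∑ b ∈ P, b.2 ^ σ) / ℓ ^ σ := by
  unfold Ws
  rw [Finset.sum_div]
  refine Finset.sum_le_sum fun b hb => ?_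
  have hb2 := hP b hb
  have h1 : |b.2 / ℓ| ^ σ = b.2 ^ σ / ℓ ^ σ := by
    rw [abs_of_pos (by positivity), Real.div_rpow hb2.le hℓ.le]
  split_ifs
  · rw [← h1]; exact min_le_right _ _
  · positivity

theorem init_locS {q σ e : ℝ} (hσ : 0 < σ) (he : 0 < e) (hσe : σ + e = 1 - e) (heσ : e ≤ σ)
    (R : ParS q σ e) {S : Ser} (hq : S.q = q) (L : Lev S R.d) {δ : ℝ}
    (hδ : 0 < δ) : ∃ g₁ : ℕ, ∀ g, g₁ ≤ g → ∀ C : Cut L R.Cs R.ε₁ R.κ g,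
      R.ε / C.Λ ≤ δ ∧ ∀ P₀ : Finset (ℝ × ℝ), (∀ b ∈ P₀, 0 < b.2) → Ws σ P₀ 0 δ < R.w →
        ∃ θ₀ : ℝ, |θ₀| ≤ δ ∧ Good R.toPar L C θ₀ ∧ Ws σ P₀ θ₀ (R.ε / C.Λ) < R.w := by
  have hc := R.c_pos
  have hc1 := R.c_le
  have hd : 0 < R.d := L.d_pos
  have hε : 0 < R.ε := by unfold Par.ε; positivity
  have hκ : 0 < R.κ := by unfold Par.κ; positivity
  have hw : 0 < R.w := R.w_pos
  have hr : 0 < R.r₀ := R.r₀_pos
  have he1 : e ≤ 1 := by linarith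
  have hr1 : R.r₀ ≤ 1 := (R.r₀_le he he1).trans (by norm_num)
  have hCV : 0 < R.CV := lt_of_lt_of_le (by norm_num) R.hCV
  -- the first frequency used
  obtain ⟨K₁, hK₁⟩ : ∃ K₁ : ℕ, R.CV / δ ≤ S.lam K₁ :=
    ((lam_tendsto S).eventually_ge_atTop (R.CV / δ)).exists
  have hlamK : R.CV ≤ S.lam K₁ * δ := by
    rwa [div_le_iff₀ hδ] at hK₁
  set m₁ : ℝ := ∑ k ∈ Finset.range K₁, ‖S.a k‖ with hm₁
  have hm₁0 : 0 ≤ m₁ := Finset.sum_nonneg fun _ _ => norm_nonneg _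
  -- the level
  have hev1 : ∀ᶠ g : ℕ in atTop, 2 * m₁ ≤ (9 * R.c / 40) * (1 + R.d) ^ (g + 1) := by
    have h1 : Tendsto (fun g : ℕ => (9 * R.c / 40) * (1 + R.d) ^ (g + 1)) atTop atTop := by
      apply Tendsto.const_mul_atTop (by positivity)
      exact (tendsto_pow_atTop_atTop_of_one_lt (by linarith)).comp (tendsto_add_atTop_nat 1)
    exact h1.eventually_ge_atTop _
  have hev2 : ∀ᶠ g : ℕ in atTop, R.ε * L.η g < R.r₀ * δ := by
    have h1 : Tendsto (fun g : ℕ => R.ε * L.η g) atTop (𝓝 (R.ε * 0)) :=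
      (eta_tendsto L).const_mul _
    rw [mul_zero] at h1
    exact h1.eventually_lt_const (by positivity)
  obtain ⟨g₁, hg₁⟩ := eventually_atTop.1 (hev1.and hev2)
  refine ⟨g₁, fun g hg C => ?_⟩
  obtain ⟨hM1, hη1⟩ := hg₁ g hg
  have hs : 0 < L.s (g + 1) := L.s_pos _
  have hM : 0 < (1 + R.d) ^ (g + 1) := by positivity
  have hl2 : 0 < R.ε / C.Λ := div_pos hε C.hΛ
  have a3 : R.ε / C.Λ ≤ R.r₀ * δ := by
    have h1 : R.ε / C.Λ ≤ R.ε * L.η g := by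
      rw [div_le_iff₀ C.hΛ]
      have := C.lower
      calc R.ε = R.ε * 1 := (mul_one _).symm
        _ ≤ R.ε * (C.Λ * L.η g) := mul_le_mul_of_nonneg_left this hε.le
        _ = R.ε * L.η g * C.Λ := by ring
    linarith
  have a3' : R.ε / C.Λ ≤ δ := by
    refine a3.trans ?_
    calc R.r₀ * δ ≤ 1 * δ := mul_le_mul_of_nonneg_right hr1 hδ.le
      _ = δ := one_mul _
  refine ⟨a3', fun P₀ hP₀ hWP₀ => ?_⟩
  set V : ℝ := ∑ k ∈ Finset.Ico K₁ C.K, S.x k (L.s (g + 1)) with hVdef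
  have hV : 0 ≤ V := Finset.sum_nonneg fun k _ => S.x_nonneg k _
  obtain ⟨μ, β, n, hμ0, hμ, hμA, hdr⟩ := R.driftA S.lam (fun k => S.x k (L.s (g + 1)))
    (fun k => (S.a k).arg) K₁ C.K 0 δ S.lam_pos (fun k => hq ▸ S.ratio k)
    (fun k => S.x_nonneg k _) hδ hlamK
  have a4 : 4 ≤ μ 0 * δ := by
    have h1 : S.lam K₁ * δ ≤ μ 0 * δ := mul_le_mul_of_nonneg_right hμ0 hδ.le
    have := R.hCV
    linarith
  set X : ℝ → ℝ := fun θ : ℝ => ∑ k ∈ Finset.Ico K₁ C.K, S.x k (L.s (g + 1)) *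
      Real.cos (S.lam k * θ + (S.a k).arg) with hX
  have a5 : Continuous X := by
    simp only [hX]
    fun_prop
  have a6 : ∀ θ : ℝ, X θ ≤ V := by
    intro θ
    simp only [hX, hVdef]
    refine Finset.sum_le_sum fun k _ => ?_
    have := Real.cos_le_one (S.lam k * θ + (S.a k).arg)
    have := S.x_nonneg k (L.s (g + 1))
    nlinarith
  have a7 : 4 * R.c * V ≤ (1 / (2 * δ)) * ∫ θ in (0 - δ)..(0 + δ),
      rp μ β n θ * X θ := by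
    rw [← R.c_eq]
    simpa only [hVdef, hX] using hdr
  obtain ⟨t, htδ, ht, hWt⟩ := selects hσ he hσe R.hA R.hAe R.c R.w R.r₀ hc hc1 hw
    ((R.w_le he heσ).trans (by norm_num)) (R.w_cond hσ he) hr
    ((R.r₀_le he he1).trans (by norm_num)) (R.r₀_cond he) μ β n
    ((S.lam_pos K₁).trans_le hμ0) hμ hμA
    0 δ (R.ε / C.Λ) ((1 + R.d) ^ (g + 1)) V R.κ hl2 a3 a4 hM hκ hV
    X a5 a6 a7 P₀ hP₀ hWP₀ ∅ (fun _ => 0) (fun _ => 0) (fun _ => ∅) 0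
    (by simp) (by simp) (by simp) (by simp) (by simp) (by simp; positivity)
  have hWt' : Ws σ P₀ t (R.ε / C.Λ) < R.w := by simpa using hWt
  refine ⟨t, by simpa using htδ, fun θ hθ => ?_, hWt'⟩
  have h1 : ‖S.P C.K (L.s (g + 1)) t - S.P C.K (L.s (g + 1)) θ‖ ≤
      C.Λ * |t - θ| * S.m C.K (L.s (g + 1)) := S.norm_P_sub_P_le C.K C.Λ C.hK _ _ _
  have h2 : ‖S.P C.K (L.s (g + 1)) t‖ ≤ ‖S.P C.K (L.s (g + 1)) θ‖ +
      ‖S.P C.K (L.s (g + 1)) t - S.P C.K (L.s (g + 1)) θ‖ := by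
    have := norm_add_le (S.P C.K (L.s (g + 1)) θ) (S.P C.K (L.s (g + 1)) t - S.P C.K (L.s (g + 1)) θ)
    simpa using this
  have h3 : (S.P C.K (L.s (g + 1)) t).re ≤ ‖S.P C.K (L.s (g + 1)) t‖ := Complex.re_le_norm _
  rw [S.re_P] at h3
  -- split off the first `K₁` terms
  have hxa : ∀ k, S.x k (L.s (g + 1)) ≤ ‖S.a k‖ := by
    intro k
    unfold Ser.x
    have h0 : Real.exp (-(S.lam k * L.s (g + 1))) ≤ 1 := by
      rw [Real.exp_le_one_iff]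
      have := mul_pos (S.lam_pos k) hs
      linarith
    calc ‖S.a k‖ * Real.exp (-(S.lam k * L.s (g + 1))) ≤ ‖S.a k‖ * 1 :=
          mul_le_mul_of_nonneg_left h0 (norm_nonneg _)
      _ = ‖S.a k‖ := mul_one _
  have hsplit : ∀ f : ℕ → ℝ, (∀ k, |f k| ≤ ‖S.a k‖) →
      |∑ k ∈ Finset.Ico 0 C.K, f k - ∑ k ∈ Finset.Ico K₁ C.K, f k| ≤ m₁ := by
    intro f hf
    have hsub : Finset.Ico K₁ C.K ⊆ Finset.Ico 0 C.K := Finset.Ico_subset_Ico (Nat.zero_le _) le_rfl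
    rw [← Finset.sum_sdiff hsub, add_sub_cancel_right]
    refine (Finset.abs_sum_le_sum_abs _ _).trans ?_
    have hsub2 : Finset.Ico 0 C.K \ Finset.Ico K₁ C.K ⊆ Finset.range K₁ := by
      intro k hk
      simp only [Finset.mem_sdiff, Finset.mem_Ico, Finset.mem_range] at hk ⊢
      omega
    calc ∑ k ∈ Finset.Ico 0 C.K \ Finset.Ico K₁ C.K, |f k|
        ≤ ∑ k ∈ Finset.Ico 0 C.K \ Finset.Ico K₁ C.K, ‖S.a k‖ :=
          Finset.sum_le_sum fun k _ => hf k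
      _ ≤ ∑ k ∈ Finset.range K₁, ‖S.a k‖ :=
          Finset.sum_le_sum_of_subset_of_nonneg hsub2 fun _ _ _ => norm_nonneg _
  have hP1 := hsplit (fun k => S.x k (L.s (g + 1)) * Real.cos (S.lam k * t + (S.a k).arg)) (by
    intro k
    rw [abs_mul, abs_of_nonneg (S.x_nonneg k _)]
    calc S.x k (L.s (g + 1)) * |Real.cos (S.lam k * t + (S.a k).arg)|
        ≤ S.x k (L.s (g + 1)) * 1 :=
          mul_le_mul_of_nonneg_left (Real.abs_cos_le_one _) (S.x_nonneg k _)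
      _ ≤ ‖S.a k‖ := by rw [mul_one]; exact hxa k)
  have hP2 := hsplit (fun k => S.x k (L.s (g + 1))) (by
    intro k
    rw [abs_of_nonneg (S.x_nonneg k _)]
    exact hxa k)
  have hXt : (∑ k ∈ Finset.Ico K₁ C.K,
      S.x k (L.s (g + 1)) * Real.cos (S.lam k * t + (S.a k).arg)) = X t := rfl
  rw [hXt] at hP1
  have hmr : (∑ k ∈ Finset.Ico 0 C.K, S.x k (L.s (g + 1))) = S.m C.K (L.s (g + 1)) := by
    rw [Ser.m, Finset.range_eq_Ico]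
  rw [hmr, ← hVdef] at hP2
  have hP1' := (abs_le.1 hP1).1
  have hP2' := (abs_le.1 hP2).2
  have hm0 : 0 ≤ S.m C.K (L.s (g + 1)) := Finset.sum_nonneg fun k _ => S.x_nonneg k _
  have h4 : C.Λ * |t - θ| ≤ 2 * R.ε := by
    rw [abs_sub_comm]
    calc C.Λ * |θ - t| ≤ C.Λ * (2 * (R.ε / C.Λ)) := mul_le_mul_of_nonneg_left hθ C.hΛ.le
      _ = 2 * R.ε := by have := C.hΛ; field_simp
  have h5 : C.Λ * |t - θ| * S.m C.K (L.s (g + 1)) ≤ 2 * R.ε * S.m C.K (L.s (g + 1)) :=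
    mul_le_mul_of_nonneg_right h4 hm0
  have h6 : 2 * R.ε ≤ R.c := by
    unfold Par.ε; nlinarith
  have h8 : 2 * R.ε * S.m C.K (L.s (g + 1)) ≤ R.c * S.m C.K (L.s (g + 1)) :=
    mul_le_mul_of_nonneg_right h6 hm0
  have h10 : R.κ = R.c / 40 := rfl
  have h11 : R.κ' = R.c / 4 := rfl
  have h12 : 2 * R.c * (S.m C.K (L.s (g + 1)) - m₁) ≤ 2 * R.c * V :=
    mul_le_mul_of_nonneg_left (by linarith) (by positivity)
  have h13 : 2 * R.c * m₁ ≤ m₁ := by nlinarith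
  rw [h11]
  rw [h10] at ht
  have h14 : R.c * (1 + R.d) ^ (g + 1) / 4 - R.c * (1 + R.d) ^ (g + 1) / 40 =
    (9 * R.c / 40) * (1 + R.d) ^ (g + 1) := by ring
  have h15 : 2 * R.c * (S.m C.K (L.s (g + 1)) - m₁) =
    2 * (R.c * S.m C.K (L.s (g + 1))) - 2 * R.c * m₁ := by ring
  have h16 : R.c / 40 * (1 + R.d) ^ (g + 1) = R.c * (1 + R.d) ^ (g + 1) / 40 := by ring
  have h17 : R.c / 4 * (1 + R.d) ^ (g + 1) = R.c * (1 + R.d) ^ (g + 1) / 4 := by ring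
  rw [h17]
  rw [h16] at ht
  linarith

end Pool.Agent.Y295.HS
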