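import Pool.Agent.Y295.HS.E

/-! The localised main construction with exponent `σ` (adapted from `HR/B.lean`, `HR/C.lean` and
`Helper95.HadaMain`). -/

open Filter Topology Set

namespace Pool.Agent.Y295.HS

open Pool.Agent.Helper95.Hada Pool.Agent.Y295.HR

/-- the lower bounds on the levels hold on a rich set near `0` -/
def RichS (σ γ : ℝ) (S : Ser) {d : ℝ} (L : Lev S d) (δ : ℝ) : Prop :=
  ∃ (ψ : ℕ → ℝ) (n₀ : ℕ) (v : ℝ), (∃ c₀ : ℝ, 0 < c₀ ∧ ∀ n, c₀ * ((1 + d) ^ n) ^ γ ≤ ψ n) ∧ 0 < v ∧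
    ∀ P : Finset (ℝ × ℝ), (∀ b ∈ P, 0 < b.2) → ∑ b ∈ P, b.2 ^ σ < v →
      ∃ θ, |θ| ≤ δ ∧ (∀ b ∈ P, b.2 < |θ - b.1|) ∧
        ∀ n, n₀ ≤ n → ∀ s ∈ Icc (L.s (n + 2)) (L.s (n + 1)), ψ n ≤ ‖S.F s θ‖

theorem sum_le_pow {σ : ℝ} (hσ : 0 < σ) (hσ1 : σ ≤ 1) (P : Finset (ℝ × ℝ))
    (hP : ∀ b ∈ P, 0 < b.2) (h1 : ∑ b ∈ P, b.2 ^ σ ≤ 1) :
    ∑ b ∈ P, b.2 ≤ ∑ b ∈ P, b.2 ^ σ := by
  refine Finset.sum_le_sum fun b hb => ?_
  have hb2 := hP b hb
  have h2 : b.2 ^ σ ≤ 1 := by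
    refine le_trans ?_ h1
    exact Finset.single_le_sum (f := fun b : ℝ × ℝ => b.2 ^ σ)
      (fun b hb => Real.rpow_nonneg (hP b hb).le _) hb
  have h3 : b.2 ≤ 1 := by
    by_contra hcon
    push Not at hcon
    have := Real.one_lt_rpow hcon hσ
    linarith
  calc b.2 = b.2 ^ (1 : ℝ) := (Real.rpow_one _).symm
    _ ≤ b.2 ^ σ := Real.rpow_le_rpow_of_exponent_ge hb2 h3 hσ1

/-- choice of the ratio of the radii of the bad intervals -/
theorem exists_r {d γ : ℝ} (hd : 0 < d) (hγ : γ < 1) (m : ℕ) :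
    ∃ r : ℝ, 0 < r ∧ r < 1 ∧ (1 + d) ^ γ ≤ r ^ m * (1 + d) := by
  have hc : Tendsto (fun r : ℝ => r ^ m * (1 + d)) (𝓝[<] 1) (𝓝 ((1 : ℝ) ^ m * (1 + d))) := by
    apply Tendsto.mono_left _ nhdsWithin_le_nhds
    have : Continuous (fun r : ℝ => r ^ m * (1 + d)) := by fun_prop
    exact this.tendsto 1
  have h0 : (1 + d) ^ γ < (1 : ℝ) ^ m * (1 + d) := by
    rw [one_pow, one_mul]
    calc (1 + d) ^ γ < (1 + d) ^ (1 : ℝ) :=
          Real.rpow_lt_rpow_of_exponent_lt (by linarith) hγ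
      _ = 1 + d := Real.rpow_one _
  have h1 : ∀ᶠ r in 𝓝[<] (1 : ℝ), (1 + d) ^ γ < r ^ m * (1 + d) := hc.eventually_const_lt h0
  have h2 : ∀ᶠ r in 𝓝[<] (1 : ℝ), r ∈ Set.Ioo (0 : ℝ) 1 := Ioo_mem_nhdsLT (by norm_num)
  obtain ⟨r, hr⟩ := (h1.and h2).exists
  exact ⟨r, hr.2.1, hr.2.2, hr.1.le⟩

theorem pow_gamma_le {d γ r : ℝ} {m : ℕ} (hd : 0 < d) (hr : (1 + d) ^ γ ≤ r ^ m * (1 + d)) (n : ℕ) :
    ((1 + d) ^ n) ^ γ ≤ (r ^ m * (1 + d)) ^ n := by
  have h1 : ((1 + d) ^ n) ^ γ = ((1 + d) ^ γ) ^ n := by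
    rw [← Real.rpow_natCast, ← Real.rpow_natCast, ← Real.rpow_mul (by linarith),
      ← Real.rpow_mul (by linarith), mul_comm]
  rw [h1]
  exact pow_le_pow_left₀ (by positivity) hr n

/-- the case of finitely many gaps -/
theorem caseB_locS {σ γ : ℝ} (hσ : 0 < σ) (hσ1 : σ ≤ 1) (hγ : γ < 1) (q d Kb : ℝ) (hq : 1 < q) (hd : 0 < d) (hKb : 1 < Kb) (S : Ser) (hS : S.q = q)
    (L : Lev S d) (n₀ : ℕ) (hn : ∀ n, n₀ ≤ n → L.η n ≤ Kb * L.η (n + 1)) {Θ : ℝ} (hΘ0 : 0 < Θ) :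
    RichS σ γ S L Θ := by
  obtain ⟨m, Lm, t₀, hm, ht₀, hav⟩ := avoid_global q d Kb hq hd hKb
  -- choose r
  obtain ⟨r, hr0, hr1, hrm⟩ := exists_r hd hγ m
  obtain ⟨n3, hn3⟩ : ∃ n3, ∀ n, n3 ≤ n → L.η n ≤ Θ := by
    have h1 := (eta_tendsto L).eventually_lt_const hΘ0
    obtain ⟨n3, h⟩ := eventually_atTop.1 h1
    exact ⟨n3, fun n hn => (h n hn).le⟩
  -- choose n1
  obtain ⟨n1, hn1, hn13, hn1s⟩ : ∃ n1, n₀ ≤ n1 ∧ n3 ≤ n1 ∧
      4 * (Lm:ℝ) * (r ^ n1 * (1 - r)⁻¹) < 1 := by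
    have hc : Tendsto (fun n : ℕ => 4 * (Lm:ℝ) * (r ^ n * (1 - r)⁻¹)) atTop (𝓝 (4 * (Lm:ℝ) * (0 * (1 - r)⁻¹))) := by
      apply Tendsto.const_mul
      apply Tendsto.mul_const
      exact tendsto_pow_atTop_nhds_zero_of_lt_one hr0.le hr1
    have h1 : ∀ᶠ n in atTop, 4 * (Lm:ℝ) * (r ^ n * (1 - r)⁻¹) < 1 := by
      apply hc.eventually_lt_const
      simp
    obtain ⟨n, hn⟩ := (h1.and ((eventually_ge_atTop n₀).and (eventually_ge_atTop n3))).exists
    exact ⟨n, hn.2.1, hn.2.2, hn.1⟩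
  have hηΘ : ∀ n, n1 ≤ n → L.η n ≤ Θ := fun n h => hn3 n (hn13.trans h)
  have hB : ∀ n, n₀ ≤ n → ∃ B : Finset ℝ,
      (B.card : ℝ) * (L.η (n + 2) / 9) ≤ Lm * (Θ + L.η (n + 2)) ∧
        ∀ θ ∈ Icc (-Θ) Θ, (∀ b ∈ B, r ^ n * (L.η (n + 2) / 9) < |θ - b|) →
          ∀ s ∈ Icc (L.s (n + 2)) (L.s (n + 1)), t₀ * (r ^ n) ^ m * (1 + d) ^ (n + 1) ≤ ‖S.F s θ‖ := by
    intro n hn'
    obtain ⟨B, -, h1, h2⟩ := hav S hS L n (hn n hn') (hn (n+1) (by omega)) (r ^ n) Θ (by positivity)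
      (pow_le_one₀ hr0.le hr1.le) hΘ0
    exact ⟨B, h1, h2⟩
  choose B hB1 hB2 using fun (n : ℕ) => hB (n + n1) (by omega)
  let U : ℕ → Set ℝ := fun n => ⋃ b ∈ B n, Icc (b - r ^ (n + n1) * (L.η (n + n1 + 2) / 9)) (b + r ^ (n + n1) * (L.η (n + n1 + 2) / 9))
  have hU : ∀ n, MeasureTheory.volume (U n) ≤ ENNReal.ofReal (4 * Lm * Θ * r ^ n1 * r ^ n) := by
    intro n
    have hρ : 0 < L.η (n + n1 + 2) := L.η_pos _
    calc MeasureTheory.volume (U n) ≤ ∑ b ∈ B n, MeasureTheory.volume (Icc (b - r ^ (n + n1) * (L.η (n + n1 + 2) / 9)) (b + r ^ (n + n1) * (L.η (n + n1 + 2) / 9))) := MeasureTheory.measure_biUnion_finset_le _ _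
      _ = ∑ b ∈ B n, ENNReal.ofReal (2 * (r ^ (n + n1) * (L.η (n + n1 + 2) / 9))) := by
          apply Finset.sum_congr rfl
          intro b _
          rw [Real.volume_Icc]
          congr 1
          ring
      _ = ENNReal.ofReal ((B n).card * (2 * (r ^ (n + n1) * (L.η (n + n1 + 2) / 9)))) := by
          rw [Finset.sum_const, nsmul_eq_mul, ENNReal.ofReal_mul (by positivity)]
          simp
      _ ≤ ENNReal.ofReal (4 * Lm * Θ * r ^ n1 * r ^ n) := by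
          apply ENNReal.ofReal_le_ofReal
          have h1 := hB1 n
          have h2 : (Lm:ℝ) * (Θ + L.η (n + n1 + 2)) ≤ Lm * (2 * Θ) := by
            apply mul_le_mul_of_nonneg_left _ (by positivity)
            linarith [hηΘ (n + n1 + 2) (by omega)]
          have h3 : ((B n).card : ℝ) * (L.η (n + n1 + 2) / 9) ≤ Lm * (2 * Θ) := h1.trans h2
          have hrp : 0 < r ^ (n + n1) := by positivity
          calc ((B n).card : ℝ) * (2 * (r ^ (n + n1) * (L.η (n + n1 + 2) / 9)))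
              = 2 * r ^ (n + n1) * (((B n).card : ℝ) * (L.η (n + n1 + 2) / 9)) := by ring
            _ ≤ 2 * r ^ (n + n1) * (Lm * (2 * Θ)) := by
                apply mul_le_mul_of_nonneg_left h3 (by positivity)
            _ = 4 * Lm * Θ * r ^ n1 * r ^ n := by rw [pow_add]; ring
  have hsum : HasSum (fun n : ℕ => 4 * (Lm:ℝ) * Θ * r ^ n1 * r ^ n) (4 * (Lm:ℝ) * Θ * r ^ n1 * (1 - r)⁻¹) :=
    (hasSum_geometric_of_lt_one hr0.le hr1).mul_left _
  have hUU : MeasureTheory.volume (⋃ n, U n) ≤ ENNReal.ofReal (4 * (Lm:ℝ) * Θ * r ^ n1 * (1 - r)⁻¹) := by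
    calc MeasureTheory.volume (⋃ n, U n) ≤ ∑' n, MeasureTheory.volume (U n) := MeasureTheory.measure_iUnion_le _
      _ ≤ ∑' n, ENNReal.ofReal (4 * Lm * Θ * r ^ n1 * r ^ n) := ENNReal.tsum_le_tsum hU
      _ = ENNReal.ofReal (∑' n, (4 * Lm * Θ * r ^ n1 * r ^ n)) := by
          rw [ENNReal.ofReal_tsum_of_nonneg (fun n => by positivity) hsum.summable]
      _ = _ := by rw [hsum.tsum_eq]
  have h3Θ : 4 * (Lm:ℝ) * Θ * r ^ n1 * (1 - r)⁻¹ < Θ := by
    calc 4 * (Lm:ℝ) * Θ * r ^ n1 * (1 - r)⁻¹ = Θ * (4 * (Lm:ℝ) * (r ^ n1 * (1 - r)⁻¹)) := by ring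
      _ < Θ * 1 := mul_lt_mul_of_pos_left hn1s hΘ0
      _ = Θ := mul_one _
  refine ⟨fun n => t₀ * (r ^ n) ^ m * (1 + d) ^ (n + 1), n1, min 1 (Θ / 4), ?_, by positivity,
    fun P hP hPv => ?_⟩
  · refine ⟨t₀, ht₀, fun n => ?_⟩
    have h1 : t₀ * (r ^ n) ^ m * (1 + d) ^ (n + 1) = (1 + d) * (t₀ * (r ^ m * (1 + d)) ^ n) := by
      rw [← pow_mul, mul_comm n m, pow_mul, mul_pow, pow_succ]
      ring
    have h2 : t₀ * ((1 + d) ^ n) ^ γ ≤ t₀ * (r ^ m * (1 + d)) ^ n :=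
      mul_le_mul_of_nonneg_left (pow_gamma_le hd hrm n) ht₀.le
    have h3 : 0 < t₀ * (r ^ m * (1 + d)) ^ n := by positivity
    show t₀ * ((1 + d) ^ n) ^ γ ≤ t₀ * (r ^ n) ^ m * (1 + d) ^ (n + 1)
    rw [h1]
    nlinarith
  -- the given intervals
  let Z : Set ℝ := ⋃ b ∈ P, Icc (b.1 - b.2) (b.1 + b.2)
  have hZ : MeasureTheory.volume Z ≤ ENNReal.ofReal (Θ / 2) := by
    calc MeasureTheory.volume Z ≤ ∑ b ∈ P, MeasureTheory.volume (Icc (b.1 - b.2) (b.1 + b.2)) :=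
          MeasureTheory.measure_biUnion_finset_le _ _
      _ = ∑ b ∈ P, ENNReal.ofReal (2 * b.2) := by
          apply Finset.sum_congr rfl
          intro b _
          rw [Real.volume_Icc]
          congr 1
          ring
      _ = ENNReal.ofReal (∑ b ∈ P, 2 * b.2) := by
          rw [ENNReal.ofReal_sum_of_nonneg]
          intro b hb
          have := hP b hb
          positivity
      _ ≤ ENNReal.ofReal (Θ / 2) := by
          apply ENNReal.ofReal_le_ofReal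
          rw [← Finset.mul_sum]
          have h1 := sum_le_pow hσ hσ1 P hP (hPv.le.trans (min_le_left _ _))
          have h2 := hPv.le.trans (min_le_right _ _)
          linarith
  obtain ⟨θ, hθ1, hθ2⟩ : ∃ θ ∈ Icc (-Θ) Θ, θ ∉ (⋃ n, U n) ∪ Z := by
    by_contra hcon
    push Not at hcon
    have hsub : Icc (-Θ) Θ ⊆ (⋃ n, U n) ∪ Z := hcon
    have h1 := (MeasureTheory.measure_mono (μ := MeasureTheory.volume) hsub).trans
      (MeasureTheory.measure_union_le _ _)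
    have h1' := h1.trans (add_le_add hUU hZ)
    have hr' : 0 < (1 - r)⁻¹ := inv_pos.2 (by linarith)
    rw [← ENNReal.ofReal_add (by positivity) (by positivity), Real.volume_Icc] at h1'
    have h2 : Θ - -Θ ≤ 4 * (Lm:ℝ) * Θ * r ^ n1 * (1 - r)⁻¹ + Θ / 2 := by
      by_contra hlt
      push Not at hlt
      have := (ENNReal.ofReal_lt_ofReal_iff (by linarith : 0 < Θ - -Θ)).2 hlt
      exact absurd h1' (not_le.2 this)
    linarith
  refine ⟨θ, abs_le.2 hθ1, fun b hb => ?_, ?_⟩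
  · by_contra hcon
    push Not at hcon
    apply hθ2
    right
    simp only [Z, mem_iUnion]
    refine ⟨b, hb, ?_⟩
    rw [abs_le] at hcon
    constructor
    · linarith [hcon.1]
    · linarith [hcon.2]
  · intro n hn' s hs
    obtain ⟨k, rfl⟩ : ∃ k, n = k + n1 := ⟨n - n1, by omega⟩
    refine hB2 k θ hθ1 ?_ s hs
    intro b hb
    by_contra hcon
    push Not at hcon
    apply hθ2
    left
    rw [mem_iUnion]
    refine ⟨k, ?_⟩
    simp only [U, mem_iUnion]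
    refine ⟨b, hb, ?_⟩
    rw [abs_le] at hcon
    constructor
    · linarith [hcon.1]
    · linarith [hcon.2]


/-- main theorem on series -/
theorem main_locS {σ e γ : ℝ} (hσ : 0 < σ) (he : 0 < e) (hσe : σ + e = 1 - e) (heσ : e ≤ σ)
    (hγ : γ < 1)
    (S : Ser) (hS : Tendsto S.M (𝓝[>] 0) atTop) {δ : ℝ} (hδ : 0 < δ) :
    ∃ (d : ℝ) (L : Lev S d), RichS σ γ S L (3 * δ) := by
  classical
  obtain ⟨R⟩ := exists_parS S.q S.one_lt_q σ e he
  have he1 : e ≤ 1 := by linarith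
  have hσ1 : σ ≤ 1 := by linarith
  have hc := R.c_pos
  have hd : 0 < R.d := by unfold Par.d; linarith
  have hκ : 0 < R.κ := by unfold Par.κ; linarith
  have hε : 0 < R.ε := by unfold Par.ε; positivity
  have hε₁ : 0 < R.ε₁ := by
    unfold Par.ε₁
    apply Real.log_pos
    nlinarith [mul_pos hκ hd]
  have hw : 0 < R.w := R.w_pos
  have hr₀ : 0 < R.r₀ := R.r₀_pos
  have hw1 : R.w < 1 := (R.w_le he heσ).trans_lt (by norm_num)
  have hr₀1 : R.r₀ ≤ 1 / 4 := (R.r₀_le he he1).trans (by norm_num)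
  obtain ⟨L⟩ := exists_lev S hS R.d hd
  obtain ⟨Kb, hKb, hcut⟩ := exists_cut R.d hd R.Cs R.ε₁ R.κ R.one_lt_Cs hε₁ hκ
  obtain ⟨m, Lm, t₀, hm, ht₀, hav⟩ := avoid_global S.q R.d Kb S.one_lt_q hd hKb
  by_cases hB : ∃ n₀, ∀ n, n₀ ≤ n → L.η n ≤ Kb * L.η (n + 1)
  · obtain ⟨n₀, hn⟩ := hB
    exact ⟨R.d, L, caseB_locS hσ hσ1 hγ S.q R.d Kb S.one_lt_q hd hKb S rfl L n₀ hn (by positivity)⟩
  push Not at hB
  -- the ratio r
  obtain ⟨r, hr0, hr1, hrm⟩ := exists_r hd hγ m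
  -- smallness of the tail of the sum of powers
  have hsq : Summable (fun n : ℕ => (r ^ n) ^ σ) := by
    have : (fun n : ℕ => (r ^ n) ^ σ) = fun n => (r ^ σ) ^ n := by
      funext n
      rw [← Real.rpow_natCast, ← Real.rpow_natCast, ← Real.rpow_mul hr0.le, ← Real.rpow_mul hr0.le,
        mul_comm]
    rw [this]
    exact summable_geometric_of_lt_one (by positivity) (Real.rpow_lt_one hr0.le hr1 hσ)
  have hcw : 0 < R.c * R.w := mul_pos hc hw
  obtain ⟨n₁, hn₁⟩ : ∃ n₁ : ℕ, ∀ N : Finset ℕ, (∀ n ∈ N, n₁ ≤ n) →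
      24000 * (Lm : ℝ) * ∑ n ∈ N, (r ^ n) ^ σ ≤ R.c * R.w := by
    have hpos : 0 < R.c * R.w / (24000 * (Lm : ℝ) + 1) := by positivity
    obtain ⟨s, hs⟩ := (summable_iff_vanishing_norm.1 hsq) _ hpos
    obtain ⟨b, hb⟩ := s.exists_nat_subset_range
    refine ⟨b, fun N hN => ?_⟩
    have hdisj : Disjoint N s := by
      rw [Finset.disjoint_left]
      intro a ha has
      have h1 := Finset.mem_range.1 (hb has)
      have h2 := hN a ha
      omega
    have h3 := hs N hdisj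
    rw [Real.norm_eq_abs] at h3
    have h4 := (abs_lt.1 h3).2
    rw [lt_div_iff₀ (by positivity)] at h4
    have h5 : 0 ≤ ∑ n ∈ N, (r ^ n) ^ σ := Finset.sum_nonneg (fun _ _ => by positivity)
    nlinarith
  obtain ⟨n₂, hn₂⟩ : ∃ n₂ : ℕ, ∀ n, n₂ ≤ n → r ^ n ≤ 1 / 2 := by
    have := tendsto_pow_atTop_nhds_zero_of_lt_one hr0.le hr1
    have h2 := this.eventually (gt_mem_nhds (show (0 : ℝ) < 1 / 2 by norm_num))
    obtain ⟨n₂, h⟩ := eventually_atTop.1 h2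
    exact ⟨n₂, fun n hn => (h n hn).le⟩
  obtain ⟨g₁, hinit⟩ := init_locS hσ he hσe heσ R rfl L hδ
  -- gaps
  obtain ⟨g₀, hg₀1, hg₀'⟩ := hB (max g₁ (max n₁ n₂))
  have hg₀ : max n₁ n₂ ≤ g₀ := (le_max_right _ _).trans hg₀1
  have hnext : ∀ g, ∃ g', g < g' ∧ Kb * L.η (g' + 1) ≤ L.η g' ∧
      ∀ n, g < n → n < g' → L.η n ≤ Kb * L.η (n + 1) := by
    intro g
    have hex : ∃ g', g < g' ∧ Kb * L.η (g' + 1) < L.η g' := by
      obtain ⟨g', h1, h2⟩ := hB (g + 1)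
      exact ⟨g', by omega, h2⟩
    refine ⟨Nat.find hex, (Nat.find_spec hex).1, (Nat.find_spec hex).2.le, fun n h1 h2 => ?_⟩
    have := Nat.find_min hex h2
    push Not at this
    exact this h1
  choose next hn1 hn2 hn3 using hnext
  let G : ℕ → ℕ := fun i => Nat.rec g₀ (fun _ g => next g) i
  have hG0 : G 0 = g₀ := rfl
  have hGs : ∀ i, G (i + 1) = next (G i) := fun i => rfl
  have hGlt : ∀ i, G i < G (i + 1) := fun i => hn1 (G i)
  have hGmono : StrictMono G := strictMono_nat_of_lt_succ hGlt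
  have hGgap : ∀ i, Kb * L.η (G i + 1) ≤ L.η (G i) := by
    intro i
    cases i with
    | zero => exact hg₀'.le
    | succ i => exact hn2 (G i)
  have hGbet : ∀ i n, G i < n → n < G (i + 1) → L.η n ≤ Kb * L.η (n + 1) := fun i n => hn3 (G i) n
  let C : ∀ i, Cut L R.Cs R.ε₁ R.κ (G i) := fun i => Classical.choice (hcut S L (G i) (hGgap i))
  obtain ⟨hℓ0δ, hinit'⟩ := hinit (G 0) ((le_max_left _ _).trans hg₀1) (C 0)
  let ℓ : ℕ → ℝ := fun i => R.ε / (C i).Λ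
  have hℓpos : ∀ i, 0 < ℓ i := fun i => div_pos hε (C i).hΛ
  let Θ : ℝ := 3 * δ
  have hΘ : 0 < Θ := by
    simp only [Θ]
    linarith
  have hBex : ∀ n : ℕ, ∃ B : Finset ℝ, (L.η n ≤ Kb * L.η (n + 1) → L.η (n + 1) ≤ Kb * L.η (n + 2) →
      (∀ y : ℝ, (B.filter (fun b => |b - y| ≤ (L.η (n + 2) / 9) / 2)).card ≤ Lm) ∧
        ∀ θ ∈ Icc (-Θ) Θ, (∀ b ∈ B, r ^ n * (L.η (n + 2) / 9) < |θ - b|) →
          ∀ s ∈ Icc (L.s (n + 2)) (L.s (n + 1)), t₀ * (r ^ n) ^ m * (1 + R.d) ^ (n + 1) ≤ ‖S.F s θ‖) := by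
    intro n
    by_cases h1 : L.η n ≤ Kb * L.η (n + 1)
    · by_cases h2 : L.η (n + 1) ≤ Kb * L.η (n + 2)
      · obtain ⟨B, hb1, -, hb3⟩ := hav S rfl L n h1 h2 (r ^ n) Θ (by positivity)
          (pow_le_one₀ hr0.le hr1.le) hΘ
        exact ⟨B, fun _ _ => ⟨hb1, hb3⟩⟩
      · exact ⟨∅, fun _ h => absurd h h2⟩
    · exact ⟨∅, fun h _ => absurd h h1⟩
  choose B hBB using hBex
  let N : ℕ → Finset ℕ := fun i => (Finset.Ioo (G i) (G (i + 1))).filter (fun n => n + 1 < G (i + 1))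
  have hNmem : ∀ i n, n ∈ N i ↔ G i < n ∧ n + 1 < G (i + 1) := by
    intro i n
    simp only [N, Finset.mem_filter, Finset.mem_Ioo]
    constructor
    · rintro ⟨⟨h1, h2⟩, h3⟩; exact ⟨h1, h3⟩
    · rintro ⟨h1, h3⟩; exact ⟨⟨h1, by omega⟩, h3⟩
  let Fam : ℕ → Finset (ℝ × ℝ) := fun i =>
    (N i).biUnion (fun n => (B n).image (fun b => (b, r ^ n * (L.η (n + 2) / 9))))
  refine ⟨R.d, L, fun n : ℕ => min ((R.c / 4) * (1 + R.d) ^ (n + 1)) (t₀ * (r ^ m * (1 + R.d)) ^ n),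
    G 0, R.w * δ ^ σ, ?_, by positivity, fun P₀ hP₀ hP₀v => ?_⟩
  · refine ⟨min (R.c / 4) t₀, by positivity, fun n => ?_⟩
    have hn1 : (1 : ℝ) ≤ (1 + R.d) ^ n := one_le_pow₀ (by linarith)
    have h1 : ((1 + R.d) ^ n) ^ γ ≤ (1 + R.d) ^ n := by
      calc ((1 + R.d) ^ n) ^ γ ≤ ((1 + R.d) ^ n) ^ (1 : ℝ) :=
            Real.rpow_le_rpow_of_exponent_le hn1 hγ.le
        _ = (1 + R.d) ^ n := Real.rpow_one _
    have h2 : (1 + R.d) ^ n ≤ (1 + R.d) ^ (n + 1) :=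
      pow_le_pow_right₀ (by linarith) (by omega)
    have h0 : 0 ≤ ((1 + R.d) ^ n) ^ γ := by positivity
    refine le_min ?_ ?_
    · calc min (R.c / 4) t₀ * ((1 + R.d) ^ n) ^ γ ≤ (R.c / 4) * ((1 + R.d) ^ n) ^ γ :=
            mul_le_mul_of_nonneg_right (min_le_left _ _) h0
        _ ≤ (R.c / 4) * (1 + R.d) ^ (n + 1) :=
            mul_le_mul_of_nonneg_left (h1.trans h2) (by positivity)
    · calc min (R.c / 4) t₀ * ((1 + R.d) ^ n) ^ γ ≤ t₀ * ((1 + R.d) ^ n) ^ γ :=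
            mul_le_mul_of_nonneg_right (min_le_right _ _) h0
        _ ≤ t₀ * (r ^ m * (1 + R.d)) ^ n :=
            mul_le_mul_of_nonneg_left (pow_gamma_le hd hrm n) ht₀.le
  have hWP₀ : Ws σ P₀ 0 δ < R.w := by
    refine (Ws_le_sum σ P₀ 0 hδ hP₀).trans_lt ?_
    rw [div_lt_iff₀ (by positivity)]
    exact hP₀v
  obtain ⟨θ₀, hθ₀δ, hθ₀, hWθ₀⟩ := hinit' P₀ hP₀ hWP₀
  let Pf : ℕ → Finset (ℝ × ℝ) := fun i => Nat.rec P₀ (fun j P => P ∪ Fam j) i
  have hPf0 : Pf 0 = P₀ := rfl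
  have hPfs : ∀ i, Pf (i + 1) = Pf i ∪ Fam i := fun i => rfl
  have hFampos : ∀ i, ∀ b ∈ Fam i, 0 < b.2 := by
    intro i b hb
    simp only [Fam, Finset.mem_biUnion, Finset.mem_image] at hb
    obtain ⟨n, -, b', -, rfl⟩ := hb
    have := L.η_pos (n + 2)
    positivity
  have hPfpos : ∀ i, ∀ b ∈ Pf i, 0 < b.2 := by
    intro i
    induction i with
    | zero => intro b hb; exact hP₀ b (by rwa [hPf0] at hb)
    | succ i ih =>
      intro b hb
      rw [hPfs, Finset.mem_union] at hb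
      rcases hb with hb | hb
      · exact ih b hb
      · exact hFampos i b hb
  let Q : ℕ → ℝ → Prop := fun i θ => Good R.toPar L (C i) θ ∧ Ws σ (Pf i) θ (ℓ i) < R.w
  have hQ0 : Q 0 θ₀ := ⟨hθ₀, by rw [hPf0]; exact hWθ₀⟩
  have hGge : ∀ i, max n₁ n₂ ≤ G i := by
    intro i
    exact hg₀.trans (hGmono.monotone (Nat.zero_le i))
  have hstep : ∀ i θ, Q i θ → ℓ (i + 1) ≤ R.r₀ * ℓ i ∧ ∃ θ', |θ' - θ| ≤ ℓ i ∧ Q (i + 1) θ' := by
    rintro i θ ⟨hgood, hWi⟩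
    have hge : ∀ n ∈ N i, max n₁ n₂ ≤ n := by
      intro n hn
      exact (hGge i).trans ((hNmem i n).1 hn).1.le
    obtain ⟨h1, θ', h2, h3, h4⟩ := stepS hσ he hσe heσ R rfl L (hGlt i) (C i) (C (i + 1)) θ hgood (Pf i) (hPfpos i) hWi
      (N i) (fun n hn => (hNmem i n).1 hn) (fun n => r ^ n) B Lm
      (by
        intro n hn
        obtain ⟨ha, hb⟩ := (hNmem i n).1 hn
        exact (hBB n (hGbet i n ha (by omega)) (hGbet i (n + 1) (by omega) hb)).1)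
      (fun n _ => by positivity)
      (fun n hn => hn₂ n ((le_max_right _ _).trans (hge n hn)))
      (hn₁ (N i) (fun n hn => (le_max_left _ _).trans (hge n hn)))
    exact ⟨h1, θ', h2, h3, by rw [hPfs]; exact h4⟩
  let st : (i : ℕ) → {θ // Q i θ} := fun i =>
    Nat.rec (motive := fun i => {θ // Q i θ}) ⟨θ₀, hQ0⟩
      (fun i s => ⟨Classical.choose (hstep i s.1 s.2).2, (Classical.choose_spec (hstep i s.1 s.2).2).2⟩) i
  let th : ℕ → ℝ := fun i => (st i).1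
  have hth0 : th 0 = θ₀ := rfl
  have hthQ : ∀ i, Q i (th i) := fun i => (st i).2
  have hths : ∀ i, |th (i + 1) - th i| ≤ ℓ i := fun i =>
    (Classical.choose_spec (hstep i (st i).1 (st i).2).2).1
  have hℓs : ∀ i, ℓ (i + 1) ≤ R.r₀ * ℓ i := fun i => (hstep i (st i).1 (st i).2).1
  have hℓ4 : ∀ i, ℓ (i + 1) ≤ ℓ i / 4 := by
    intro i
    have := hℓs i
    have h2 := hℓpos i
    nlinarith
  have hℓgeo : ∀ i, ℓ i ≤ ℓ 0 * (1 / 4) ^ i := by
    intro i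
    induction i with
    | zero => simp
    | succ i ih =>
      have := hℓ4 i
      rw [pow_succ]
      linarith
  have hnest : ∀ i, Icc (th (i + 1) - 2 * ℓ (i + 1)) (th (i + 1) + 2 * ℓ (i + 1)) ⊆
      Icc (th i - 2 * ℓ i) (th i + 2 * ℓ i) := by
    intro i x hx
    have h1 := abs_le.1 (hths i)
    have h2 := hℓ4 i
    have h3 := hℓpos i
    have h4 := hℓpos (i + 1)
    constructor
    · have := hx.1; linarith [h1.1]
    · have := hx.2; linarith [h1.2]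
  obtain ⟨θ, hθ⟩ : (⋂ i, Icc (th i - 2 * ℓ i) (th i + 2 * ℓ i)).Nonempty := by
    apply IsCompact.nonempty_iInter_of_sequence_nonempty_isCompact_isClosed
    · exact hnest
    · intro i
      refine ⟨th i, ?_, ?_⟩ <;> linarith [hℓpos i]
    · exact isCompact_Icc
    · intro i; exact isClosed_Icc
  rw [mem_iInter] at hθ
  have hθi : ∀ i, |θ - th i| ≤ 2 * ℓ i := by
    intro i
    rw [abs_le]
    constructor
    · linarith [(hθ i).1]
    · linarith [(hθ i).2]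
  have hℓ0δ' : ℓ 0 ≤ δ := hℓ0δ
  have hθΘ : θ ∈ Icc (-Θ) Θ := by
    have h1 := hθ 0
    rw [hth0] at h1
    have h2 := (abs_le.1 hθ₀δ).1
    have h3 := (abs_le.1 hθ₀δ).2
    constructor
    · have := h1.1; simp only [Θ]; linarith
    · have := h1.2; simp only [Θ]; linarith
  -- the point avoids all bad intervals
  have hPfmono : ∀ i j, i ≤ j → Pf i ⊆ Pf j := by
    intro i j hij
    induction j, hij using Nat.le_induction with
    | base => exact Finset.Subset.refl _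
    | succ j _ ih =>
      rw [hPfs]
      exact ih.trans Finset.subset_union_left
  have havd0 : ∀ i, ∀ b h : ℝ, (b, h) ∈ Pf i → h < |θ - b| := by
    intro i b h hmem
    by_contra hcon
    push Not at hcon
    have hhpos : 0 < h := hPfpos i _ hmem
    -- choose j > i with ℓ j ≤ h
    obtain ⟨j, hj⟩ : ∃ j, ℓ 0 * (1 / 4) ^ j < h := by
      have h1 : Tendsto (fun j : ℕ => ℓ 0 * (1 / 4 : ℝ) ^ j) atTop (𝓝 (ℓ 0 * 0)) :=
        (tendsto_pow_atTop_nhds_zero_of_lt_one (by norm_num) (by norm_num)).const_mul _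
      rw [mul_zero] at h1
      exact (h1.eventually (gt_mem_nhds hhpos)).exists
    set k := max i j with hk
    have hk1 : ℓ k ≤ h := by
      have h1 := hℓgeo k
      have h2 : (1 / 4 : ℝ) ^ k ≤ (1 / 4) ^ j :=
        pow_le_pow_of_le_one (by norm_num) (by norm_num) (le_max_right _ _)
      have h3 := hℓpos 0
      nlinarith
    have hmem2 : (b, h) ∈ Pf k := by
      exact hPfmono i k (le_max_left _ _) hmem
    have hW := (hthQ k).2
    have hle : (1 : ℝ) ≤ Ws σ (Pf k) (th k) (ℓ k) := by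
      have hterm : (1 : ℝ) ≤ wts σ (ℓ k) b h (th k) := by
        have hcond : |b - th k| ≤ 2 * ℓ k + h := by
          have h1 := hθi k
          have h2 : |b - th k| ≤ |θ - b| + |θ - th k| := by
            have : b - th k = -(θ - b) + (θ - th k) := by ring
            rw [this]
            calc |-(θ - b) + (θ - th k)| ≤ |-(θ - b)| + |θ - th k| := abs_add_le _ _
              _ = |θ - b| + |θ - th k| := by rw [abs_neg]
          linarith
        unfold wts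
        rw [if_pos hcond, abs_of_pos (div_pos hhpos (hℓpos k))]
        apply le_min le_rfl
        apply Real.one_le_rpow _ hσ.le
        rw [le_div_iff₀ (hℓpos k)]
        linarith
      refine hterm.trans ?_
      rw [Ws_eq]
      exact Finset.single_le_sum (f := fun b : ℝ × ℝ => wts σ (ℓ k) b.1 b.2 (th k))
        (fun b _ => wts_nonneg _ _ _ _ _) hmem2
    linarith
  have havd : ∀ i, ∀ n ∈ N i, ∀ b ∈ B n, r ^ n * (L.η (n + 2) / 9) < |θ - b| := by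
    intro i n hn b hb
    apply havd0 (i + 1)
    rw [hPfs]
    apply Finset.mem_union_right
    simp only [Fam, Finset.mem_biUnion, Finset.mem_image]
    exact ⟨n, hn, b, hb, rfl⟩
  refine ⟨θ, abs_le.2 hθΘ, fun b hb => havd0 0 b.1 b.2 (by rw [hPf0]; exact hb), ?_⟩
  intro n hn s hs
  -- find the window
  obtain ⟨i, hi1, hi2⟩ : ∃ i : ℕ, G i ≤ n ∧ n < G (i + 1) := by
    have hex : ∃ j, n < G j := ⟨n + 1, by
      have := hGmono.id_le (n + 1)
      simp only [id] at this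
      omega⟩
    have hpos : 0 < Nat.find hex := by
      rw [Nat.pos_iff_ne_zero]
      intro h0
      have := Nat.find_spec hex
      rw [h0] at this
      omega
    refine ⟨Nat.find hex - 1, ?_, ?_⟩
    · have := Nat.find_min hex (m := Nat.find hex - 1) (by omega)
      omega
    · have h1 : Nat.find hex - 1 + 1 = Nat.find hex := by omega
      rw [h1]
      exact Nat.find_spec hex
  rcases eq_or_ne n (G i) with hA | hA
  · subst hA
    refine (min_le_left _ _).trans ?_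
    exact Good.left (hthQ i).1 θ (hθi i) s hs
  rcases eq_or_ne (n + 1) (G (i + 1)) with hA2 | hA2
  · refine (min_le_left _ _).trans ?_
    have h1 := Good.right (hthQ (i + 1)).1 θ (hθi (i + 1)) s
      (by rw [← hA2]; exact hs)
    refine le_trans ?_ h1
    have h2 : (1 + R.d) ^ (n + 1) ≤ (1 + R.d) ^ (G (i + 1) + 1) :=
      pow_le_pow_right₀ (by linarith) (by omega)
    have : 0 < R.c / 4 := by positivity
    nlinarith
  · have hmem : n ∈ N i := (hNmem i n).2 ⟨by omega, by omega⟩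
    have h1 := (hBB n (hGbet i n (by omega) (by omega)) (hGbet i (n + 1) (by omega) (by omega))).2 θ hθΘ
      (havd i n hmem) s hs
    refine (min_le_right _ _).trans (le_trans ?_ h1)
    rw [mul_pow, ← pow_mul, ← pow_mul, mul_comm n m, pow_succ]
    have h3 : 0 < (1 + R.d) ^ n := by positivity
    have h4 : 0 < r ^ (m * n) := by positivity
    have h5 : (1 + R.d) ^ n ≤ (1 + R.d) ^ n * (1 + R.d) := by nlinarith
    calc t₀ * (r ^ (m * n) * (1 + R.d) ^ n) = (t₀ * r ^ (m * n)) * (1 + R.d) ^ n := by ring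
      _ ≤ (t₀ * r ^ (m * n)) * ((1 + R.d) ^ n * (1 + R.d)) :=
          mul_le_mul_of_nonneg_left h5 (by positivity)

end Pool.Agent.Y295.HS
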